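import Pool.Agent.H503R3.FI.Stmts

set_option autoImplicit false

universe u

open IsLocalRing

namespace H503R3.FI

section basic

variable {B : Type u} [CommRing B] {n : ℕ}

theorem hom_ext_L {x : Fin n → B} {i : ℕ} {j : Fin i → Fin n} {A : Type*} [CommRing A]
    {f g : L x j →+* A} (h : ∀ b, f (algebraMap B (L x j) b) = g (algebraMap B (L x j) b)) :
    f = g :=
  IsLocalization.ringHom_ext (Submonoid.powers (∏ l, x (j l))) (RingHom.ext h)

/-- General map out of `L x j`. -/
noncomputable def liftL (x : Fin n → B) {i : ℕ} (j : Fin i → Fin n) {A : Type u} [CommRing A]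
    (f : B →+* A) (h : IsUnit (f (∏ l, x (j l)))) : L x j →+* A :=
  IsLocalization.Away.lift (∏ l, x (j l)) h

@[simp] theorem liftL_algebraMap (x : Fin n → B) {i : ℕ} (j : Fin i → Fin n) {A : Type u}
    [CommRing A] (f : B →+* A) (h : IsUnit (f (∏ l, x (j l)))) (b : B) :
    liftL x j f h (algebraMap B (L x j) b) = f b :=
  IsLocalization.Away.lift_eq _ h b

@[simp] theorem res_algebraMap (x : Fin n → B) {i i' : ℕ} (j' : Fin i' → Fin n)
    (j : Fin i → Fin n) (h : Set.range j' ⊆ Set.range j) (b : B) :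
    res x j' j h (algebraMap B (L x j') b) = algebraMap B (L x j) b :=
  IsLocalization.Away.lift_eq _ _ b

theorem res_res (x : Fin n → B) {i i' i'' : ℕ} (j'' : Fin i'' → Fin n) (j' : Fin i' → Fin n)
    (j : Fin i → Fin n) (h1 : Set.range j'' ⊆ Set.range j') (h2 : Set.range j' ⊆ Set.range j)
    (c : L x j'') : res x j' j h2 (res x j'' j' h1 c) = res x j'' j (h1.trans h2) c := by
  have : (res x j' j h2).comp (res x j'' j' h1) = res x j'' j (h1.trans h2) := by
    apply hom_ext_L
    intro b
    simp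
  exact RingHom.congr_fun this c

theorem res_self (x : Fin n → B) {i : ℕ} (j : Fin i → Fin n) (h : Set.range j ⊆ Set.range j)
    (c : L x j) : res x j j h c = c := by
  have : res x j j h = RingHom.id _ := by
    apply hom_ext_L
    intro b
    simp
  rw [this]
  rfl

theorem res_congr (x : Fin n → B) {i i' : ℕ} (c : Cochain x i') {j' j'' : Fin i' → Fin n}
    (hj : j' = j'') (j : Fin i → Fin n) (h1 : Set.range j' ⊆ Set.range j)
    (h2 : Set.range j'' ⊆ Set.range j) : res x j' j h1 (c j') = res x j'' j h2 (c j'') := by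
  subst hj
  rfl

theorem d_apply (x : Fin n → B) (i : ℕ) (c : Cochain x i) (j : Fin (i + 1) → Fin n) :
    d x i c j = ∑ m : Fin (i + 1), (-1) ^ (m : ℕ) *
      res x (j ∘ m.succAbove) j (Set.range_comp_subset_range _ _) (c (j ∘ m.succAbove)) := rfl

theorem d_sub (x : Fin n → B) (i : ℕ) (c c' : Cochain x i) :
    d x i (c - c') = d x i c - d x i c' := by
  funext j
  rw [Pi.sub_apply, d_apply, d_apply, d_apply, ← Finset.sum_sub_distrib]
  apply Finset.sum_congr rfl
  intro m _
  rw [Pi.sub_apply, map_sub, mul_sub]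

theorem d_d (x : Fin n → B) (i : ℕ) (c : Cochain x i) : d x (i + 1) (d x i c) = 0 := by
  funext j
  have h1 : d x (i + 1) (d x i c) j = ∑ a : Fin (i + 2) × Fin (i + 1),
      (-1) ^ ((a.1 : ℕ) + (a.2 : ℕ)) * res x (j ∘ (a.1.succAbove ∘ a.2.succAbove)) j
        (Set.range_comp_subset_range _ _) (c (j ∘ (a.1.succAbove ∘ a.2.succAbove))) := by
    rw [d_apply, Fintype.sum_prod_type]
    apply Finset.sum_congr rfl
    intro m _
    rw [d_apply, map_sum, Finset.mul_sum]
    apply Finset.sum_congr rfl
    intro l _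
    rw [map_mul, res_res, map_pow, map_neg, map_one, pow_add, mul_assoc]
    rfl
  rw [h1]
  change _ = (0 : L x j)
  refine Finset.sum_involution (fun a _ => (a.1.succAbove a.2, a.2.predAbove a.1)) ?_ ?_ ?_ ?_
  · rintro ⟨m, l⟩ _
    have h2 : (m.succAbove l).succAbove ∘ (l.predAbove m).succAbove = m.succAbove ∘ l.succAbove :=
      funext fun k => Fin.succAbove_succAbove_succAbove_predAbove m l k
    have h3 := res_congr x c (congrArg (fun f => j ∘ f) h2) j
      (Set.range_comp_subset_range _ _) (Set.range_comp_subset_range _ _)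
    change _ + (-1) ^ ((m.succAbove l : ℕ) + (l.predAbove m : ℕ)) *
      res x (j ∘ ((m.succAbove l).succAbove ∘ (l.predAbove m).succAbove)) j _
        (c (j ∘ ((m.succAbove l).succAbove ∘ (l.predAbove m).succAbove))) = 0
    rw [h3, Fin.neg_one_pow_succAbove_add_predAbove]
    ring
  · rintro ⟨m, l⟩ _ _ heq
    exact Fin.succAbove_ne m l (congrArg Prod.fst heq)
  · intro a _
    exact Finset.mem_univ _
  · rintro ⟨m, l⟩ _
    apply Prod.ext
    · exact Fin.succAbove_succAbove_predAbove m l
    · exact Fin.predAbove_predAbove_succAbove m l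

end basic

section functor

variable {B B' B'' : Type u} [CommRing B] [CommRing B'] [CommRing B''] {n : ℕ}

theorem isUnit_map (f : B →+* B') {x : Fin n → B} {y : Fin n → B'} (hy : ∀ l, f (x l) = y l)
    {i : ℕ} (j : Fin i → Fin n) :
    IsUnit (((algebraMap B' (L y j)).comp f) (∏ l, x (j l))) := by
  have h : f (∏ l, x (j l)) = ∏ l, y (j l) := by
    rw [map_prod]
    exact Finset.prod_congr rfl fun l _ => hy _
  rw [RingHom.comp_apply, h]
  exact IsLocalization.Away.algebraMap_isUnit _

/-- The map of localisations induced by a ring hom. -/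
noncomputable def mapL (f : B →+* B') {x : Fin n → B} {y : Fin n → B'}
    (hy : ∀ l, f (x l) = y l) {i : ℕ} (j : Fin i → Fin n) : L x j →+* L y j :=
  liftL x j ((algebraMap B' (L y j)).comp f) (isUnit_map f hy j)

@[simp] theorem mapL_algebraMap (f : B →+* B') {x : Fin n → B} {y : Fin n → B'}
    (hy : ∀ l, f (x l) = y l) {i : ℕ} (j : Fin i → Fin n) (b : B) :
    mapL f hy j (algebraMap B (L x j) b) = algebraMap B' (L y j) (f b) :=
  liftL_algebraMap _ _ _ _ _

theorem mapL_res (f : B →+* B') {x : Fin n → B} {y : Fin n → B'} (hy : ∀ l, f (x l) = y l)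
    {i i' : ℕ} (j' : Fin i' → Fin n) (j : Fin i → Fin n) (h : Set.range j' ⊆ Set.range j)
    (c : L x j') : mapL f hy j (res x j' j h c) = res y j' j h (mapL f hy j' c) := by
  have : (mapL f hy j).comp (res x j' j h) = (res y j' j h).comp (mapL f hy j') := by
    apply hom_ext_L
    intro b
    simp
  exact RingHom.congr_fun this c

theorem mapL_mapL (f : B →+* B') (g : B' →+* B'') {x : Fin n → B} {y : Fin n → B'}
    {z : Fin n → B''} (hy : ∀ l, f (x l) = y l) (hz : ∀ l, g (y l) = z l)
    (hgf : ∀ l, (g.comp f) (x l) = z l) {i : ℕ} (j : Fin i → Fin n)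
    (c : L x j) : mapL g hz j (mapL f hy j c) = mapL (g.comp f) hgf j c := by
  have : (mapL g hz j).comp (mapL f hy j) = mapL (g.comp f) hgf j := by
    apply hom_ext_L
    intro b
    simp
  exact RingHom.congr_fun this c

/-- The map of Cech complexes. -/
noncomputable def mapC (f : B →+* B') {x : Fin n → B} {y : Fin n → B'}
    (hy : ∀ l, f (x l) = y l) (i : ℕ) (c : Cochain x i) : Cochain y i :=
  fun j => mapL f hy j (c j)

theorem mapC_d (f : B →+* B') {x : Fin n → B} {y : Fin n → B'} (hy : ∀ l, f (x l) = y l)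
    (i : ℕ) (c : Cochain x i) : mapC f hy (i + 1) (d x i c) = d y i (mapC f hy i c) := by
  funext j
  change mapL f hy j (d x i c j) = _
  rw [d_apply, d_apply, map_sum]
  apply Finset.sum_congr rfl
  intro m _
  rw [map_mul, map_pow, map_neg, map_one, mapL_res]
  rfl

theorem mapC_sub (f : B →+* B') {x : Fin n → B} {y : Fin n → B'} (hy : ∀ l, f (x l) = y l)
    (i : ℕ) (c c' : Cochain x i) :
    mapC f hy i (c - c') = mapC f hy i c - mapC f hy i c' := by
  funext j
  exact map_sub _ _ _

theorem mapL_surjective (f : B →+* B') (hf : Function.Surjective f) {x : Fin n → B}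
    {y : Fin n → B'} (hy : ∀ l, f (x l) = y l) {i : ℕ} (j : Fin i → Fin n) :
    Function.Surjective (mapL f hy j) := by
  intro z
  obtain ⟨b, s, hz⟩ := IsLocalization.exists_mk'_eq (Submonoid.powers (∏ l, y (j l))) z
  obtain ⟨m, hm⟩ := s.2
  obtain ⟨a, rfl⟩ := hf b
  let s' : Submonoid.powers (∏ l, x (j l)) :=
    ⟨(∏ l, x (j l)) ^ m, Submonoid.pow_mem _ (Submonoid.mem_powers _) m⟩
  refine ⟨IsLocalization.mk' (L x j) a s', ?_⟩
  rw [← hz]
  have hs : f ((∏ l, x (j l)) ^ m) = s := by
    rw [map_pow, map_prod]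
    simp only [hy]
    exact hm
  rw [eq_comm, IsLocalization.mk'_eq_iff_eq_mul]
  have h1 := congrArg (mapL f hy j) (IsLocalization.mk'_spec (L x j) a s')
  rw [map_mul, mapL_algebraMap, mapL_algebraMap] at h1
  rw [← h1]
  have h2 : f (s' : B) = (s : B') := hs
  rw [h2]

end functor

end H503R3.FI
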