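import Pool.Agent.H503R3.FI.Cech

set_option autoImplicit false

universe u

open IsLocalRing

namespace H503R3.FI

section zero

variable {B : Type u} [CommRing B] {n : ℕ}

theorem algebraMap_surjective_zero (x : Fin n → B) (j : Fin 0 → Fin n) :
    Function.Surjective (algebraMap B (L x j)) := by
  intro z
  obtain ⟨a, s, hz⟩ := IsLocalization.exists_mk'_eq (Submonoid.powers (∏ l, x (j l))) z
  refine ⟨a, ?_⟩
  rw [← hz, eq_comm, IsLocalization.mk'_eq_iff_eq_mul]
  obtain ⟨m, hm⟩ := s.2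
  have hs : (s : B) = 1 := by
    rw [← hm]
    simp
  rw [hs, map_one, mul_one]

theorem algebraMap_injective_L [IsDomain B] (x : Fin n → B) {i : ℕ} (j : Fin i → Fin n)
    (h : ∀ l, x (j l) ≠ 0) : Function.Injective (algebraMap B (L x j)) := by
  apply IsLocalization.injective (M := Submonoid.powers (∏ l, x (j l)))
  apply powers_le_nonZeroDivisors_of_noZeroDivisors
  exact Finset.prod_ne_zero_iff.mpr fun l _ => h l

end zero

section curve

variable {B : Type u} [CommRing B] {n : ℕ} {x : Fin n → B} {j0 : Fin n}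

theorem isUnit_cons (hdiv : ∀ l, ∃ N : ℕ, x j0 ∣ x l ^ N) {i : ℕ} (j : Fin (i + 1) → Fin n) :
    IsUnit (algebraMap B (L x j) (∏ l, x ((Fin.cons j0 j : Fin (i + 1 + 1) → Fin n) l))) := by
  have hp : ∏ l, x ((Fin.cons j0 j : Fin (i + 1 + 1) → Fin n) l) = x j0 * ∏ l, x (j l) := by
    rw [Fin.prod_univ_succ]
    simp
  rw [hp, map_mul]
  have hu : IsUnit (algebraMap B (L x j) (∏ l, x (j l))) :=
    IsLocalization.Away.algebraMap_isUnit _
  refine IsUnit.mul ?_ ?_
  · obtain ⟨N, c, hc⟩ := hdiv (j 0)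
    have h0 : IsUnit (algebraMap B (L x j) (x (j 0))) := by
      rw [map_prod, IsUnit.prod_univ_iff] at hu
      exact hu 0
    have h1 := h0.pow N
    rw [← map_pow, hc, map_mul] at h1
    exact isUnit_of_mul_isUnit_left h1
  · exact hu

/-- The inverse of the restriction to `cons j0 j`. -/
noncomputable def back (hdiv : ∀ l, ∃ N : ℕ, x j0 ∣ x l ^ N) {i : ℕ} (j : Fin (i + 1) → Fin n) :
    L x (Fin.cons j0 j : Fin (i + 1 + 1) → Fin n) →+* L x j :=
  liftL x (Fin.cons j0 j : Fin (i + 1 + 1) → Fin n) (algebraMap B (L x j)) (isUnit_cons hdiv j)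

theorem range_cons {i : ℕ} (j : Fin i → Fin n) :
    Set.range j ⊆ Set.range (Fin.cons j0 j : Fin (i + 1) → Fin n) := by
  rintro _ ⟨l, rfl⟩
  exact ⟨l.succ, by simp⟩

theorem back_res (hdiv : ∀ l, ∃ N : ℕ, x j0 ∣ x l ^ N) {i : ℕ} (j : Fin (i + 1) → Fin n)
    (c : L x j) : back hdiv j (res x j (Fin.cons j0 j) (range_cons j) c) = c := by
  have : (back hdiv j).comp (res x j (Fin.cons j0 j) (range_cons j)) = RingHom.id _ := by
    apply hom_ext_L
    intro b
    simp [back]
  exact RingHom.congr_fun this c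

theorem res_injective (hdiv : ∀ l, ∃ N : ℕ, x j0 ∣ x l ^ N) {i : ℕ} (j : Fin (i + 1) → Fin n) :
    Function.Injective (res x j (Fin.cons j0 j) (range_cons j)) := by
  intro a b hab
  rw [← back_res hdiv j a, hab, back_res]

theorem range_cons_mono {i i' : ℕ} (j' : Fin i' → Fin n) (j : Fin i → Fin n)
    (h : Set.range j' ⊆ Set.range j) :
    Set.range (Fin.cons j0 j' : Fin (i' + 1) → Fin n) ⊆
      Set.range (Fin.cons j0 j : Fin (i + 1) → Fin n) := by
  rintro _ ⟨l, rfl⟩
  refine Fin.cases ?_ (fun k => ?_) l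
  · exact ⟨0, by simp⟩
  · obtain ⟨m, hm⟩ := h ⟨k, rfl⟩
    exact ⟨m.succ, by simp [hm]⟩

theorem res_back (hdiv : ∀ l, ∃ N : ℕ, x j0 ∣ x l ^ N) {i i' : ℕ} (j' : Fin (i' + 1) → Fin n)
    (j : Fin i → Fin n) (h : Set.range j' ⊆ Set.range j)
    (h' : Set.range j' ⊆ Set.range (Fin.cons j0 j : Fin (i + 1) → Fin n))
    (c : L x (Fin.cons j0 j' : Fin (i' + 1 + 1) → Fin n)) :
    res x j' (Fin.cons j0 j) h' (back hdiv j' c) =
      res x (Fin.cons j0 j') (Fin.cons j0 j) (range_cons_mono j' j h) c := by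
  have : (res x j' (Fin.cons j0 j) h').comp (back hdiv j') =
      res x (Fin.cons j0 j') (Fin.cons j0 j) (range_cons_mono j' j h) := by
    apply hom_ext_L
    intro b
    simp [back]
  exact RingHom.congr_fun this c

theorem cons_succAbove_zero {i : ℕ} (j : Fin i → Fin n) :
    (Fin.cons j0 j : Fin (i + 1) → Fin n) ∘ (0 : Fin (i + 1)).succAbove = j := by
  funext k
  simp

theorem cons_succAbove_succ {i : ℕ} (j : Fin (i + 1) → Fin n) (l : Fin (i + 1)) :
    (Fin.cons j0 j : Fin (i + 1 + 1) → Fin n) ∘ l.succ.succAbove =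
      Fin.cons j0 (j ∘ l.succAbove) := by
  funext k
  refine Fin.cases ?_ (fun k => ?_) k
  · simp
  · simp

theorem d_cons (i : ℕ) (h : Cochain x (i + 1)) (hd : d x (i + 1) h = 0)
    (j : Fin (i + 1) → Fin n) :
    res x j (Fin.cons j0 j) (range_cons j) (h j) = ∑ l : Fin (i + 1), (-1) ^ (l : ℕ) *
      res x (Fin.cons j0 (j ∘ l.succAbove)) (Fin.cons j0 j)
        (range_cons_mono _ _ (Set.range_comp_subset_range _ _))
        (h (Fin.cons j0 (j ∘ l.succAbove))) := by
  have h1 := congrFun hd (Fin.cons j0 j)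
  rw [d_apply, Fin.sum_univ_succ] at h1
  have h2 := res_congr x h (cons_succAbove_zero (j0 := j0) j) (Fin.cons j0 j)
    (Set.range_comp_subset_range _ _) (range_cons j)
  rw [h2] at h1
  have h3 : ∀ l : Fin (i + 1), (-1) ^ ((l.succ : Fin (i + 1 + 1)) : ℕ) *
      res x ((Fin.cons j0 j : Fin (i + 1 + 1) → Fin n) ∘ l.succ.succAbove) (Fin.cons j0 j)
        (Set.range_comp_subset_range _ _)
        (h ((Fin.cons j0 j : Fin (i + 1 + 1) → Fin n) ∘ l.succ.succAbove)) =
      - ((-1) ^ (l : ℕ) * res x (Fin.cons j0 (j ∘ l.succAbove)) (Fin.cons j0 j)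
        (range_cons_mono _ _ (Set.range_comp_subset_range _ _))
        (h (Fin.cons j0 (j ∘ l.succAbove)))) := by
    intro l
    rw [res_congr x h (cons_succAbove_succ (j0 := j0) j l) (Fin.cons j0 j)
      (Set.range_comp_subset_range _ _)
      (range_cons_mono _ _ (Set.range_comp_subset_range _ _)), Fin.val_succ, pow_succ]
    ring
  rw [Finset.sum_congr rfl fun l _ => h3 l, Finset.sum_neg_distrib] at h1
  have h4 : res x j (Fin.cons j0 j) (range_cons j) (h j) -
      ∑ l : Fin (i + 1), (-1) ^ (l : ℕ) *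
      res x (Fin.cons j0 (j ∘ l.succAbove)) (Fin.cons j0 j)
        (range_cons_mono _ _ (Set.range_comp_subset_range _ _))
        (h (Fin.cons j0 (j ∘ l.succAbove))) = 0 := by
    rw [sub_eq_add_neg]
    simpa using h1
  exact sub_eq_zero.mp h4

/-- Vanishing of the cohomology of a curve in degrees at least 2. -/
theorem exact_ge_two (hdiv : ∀ l, ∃ N : ℕ, x j0 ∣ x l ^ N) (i : ℕ) (h : Cochain x (i + 2))
    (hd : d x (i + 2) h = 0) : ∃ s : Cochain x (i + 1), d x (i + 1) s = h := by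
  refine ⟨fun j => back hdiv j (h (Fin.cons j0 j)), ?_⟩
  funext j
  apply res_injective hdiv j
  rw [d_cons (i + 1) h hd j, d_apply, map_sum]
  apply Finset.sum_congr rfl
  intro l _
  rw [map_mul, map_pow, map_neg, map_one, res_res,
    res_back hdiv _ _ (Set.range_comp_subset_range _ _)]

theorem exact_zero [IsDomain B] (h0 : x j0 ≠ 0) (h : Cochain x 0) (hd : d x 0 h = 0) :
    h = 0 := by
  funext j
  obtain ⟨a, ha⟩ := algebraMap_surjective_zero x j (h j)
  have h1 := congrFun hd (fun _ => j0)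
  rw [d_apply, Fin.sum_univ_one] at h1
  have h2 : (fun _ : Fin 1 => j0) ∘ (0 : Fin 1).succAbove = j := funext fun k => k.elim0
  rw [res_congr x h h2 (fun _ => j0) (Set.range_comp_subset_range _ _)
    (by rintro _ ⟨k, _⟩; exact k.elim0), ← ha, res_algebraMap] at h1
  have h3 : algebraMap B (L x (fun _ : Fin 1 => j0)) a = 0 := by simpa using h1
  have h4 : a = 0 := by
    apply algebraMap_injective_L x (fun _ : Fin 1 => j0) (fun _ => h0)
    rw [h3, map_zero]
  rw [← ha, h4, map_zero]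
  rfl

theorem exact_one [IsDomain B] (h0 : x j0 ≠ 0) (hdiv : ∀ l, ∃ N : ℕ, x j0 ∣ x l ^ N)
    (hroot : ∀ a b c : B, b ≠ 0 → a ^ 2 = c * b ^ 2 → b ∣ a)
    (h : Cochain x 1) (hd : d x 1 h = 0) (t : Cochain x 0)
    (ht : d x 0 t = fun j => h j ^ 2) : ∃ r : Cochain x 0, d x 0 r = h := by
  have hres : ∀ (r : Cochain x 0) (r0 : B), r Fin.elim0 = algebraMap B _ r0 →
      ∀ j : Fin 1 → Fin n, d x 0 r j = algebraMap B _ r0 := by
    intro r r0 hr j
    rw [d_apply, Fin.sum_univ_one]
    have h2 : j ∘ (0 : Fin 1).succAbove = Fin.elim0 := funext fun k => k.elim0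
    rw [res_congr x r h2 j (Set.range_comp_subset_range _ _)
      (by rintro _ ⟨k, _⟩; exact k.elim0), hr, res_algebraMap]
    simp
  obtain ⟨t0, ht0⟩ := algebraMap_surjective_zero x Fin.elim0 (t Fin.elim0)
  have hinj := algebraMap_injective_L x (fun _ : Fin 1 => j0) (fun _ => h0)
  obtain ⟨r0, hr0⟩ : ∃ r0 : B, h (fun _ => j0) = algebraMap B _ r0 := by
    obtain ⟨a, s, hz⟩ := IsLocalization.exists_mk'_eq
      (Submonoid.powers (∏ l : Fin 1, x ((fun _ : Fin 1 => j0) l))) (h (fun _ => j0))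
    obtain ⟨m, hm⟩ := s.2
    have hs : (s : B) = x j0 ^ m := by
      rw [← hm]
      simp
    have hs0 : (s : B) ≠ 0 := by
      rw [hs]
      exact pow_ne_zero _ h0
    have h1 := IsLocalization.mk'_spec (L x (fun _ : Fin 1 => j0)) a s
    rw [hz] at h1
    have h2 : h (fun _ => j0) ^ 2 = algebraMap B _ t0 := by
      have := congrFun ht (fun _ => j0)
      rw [hres t t0 ht0.symm] at this
      exact this.symm
    have h3 : a ^ 2 = t0 * (s : B) ^ 2 := by
      apply hinj
      rw [map_mul, map_pow, map_pow, ← h1, ← h2]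
      ring
    obtain ⟨r0, hr⟩ := hroot a s t0 hs0 h3
    refine ⟨r0, ?_⟩
    have hu : IsUnit (algebraMap B (L x (fun _ : Fin 1 => j0)) (s : B)) :=
      IsLocalization.map_units _ s
    apply hu.mul_right_cancel
    rw [h1, hr, map_mul, mul_comm]
  refine ⟨fun j => algebraMap B _ r0, ?_⟩
  funext j
  rw [hres _ r0 rfl]
  apply res_injective hdiv j
  rw [res_algebraMap, d_cons 0 h hd j, Fin.sum_univ_one]
  have h2 : (Fin.cons j0 (j ∘ (0 : Fin 1).succAbove) : Fin 1 → Fin n) = fun _ => j0 := by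
    funext k
    have : k = 0 := by
      apply Fin.ext
      have := k.2
      simp only [Fin.val_zero]
      omega
    subst this
    simp
  rw [res_congr x h h2 (Fin.cons j0 j) (range_cons_mono _ _ (Set.range_comp_subset_range _ _))
    (by rw [← h2]; exact range_cons_mono _ _ (Set.range_comp_subset_range _ _)), hr0,
    res_algebraMap]
  simp

end curve

end H503R3.FI
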