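import Mathlib

/-! Definitions: Cech complexes, the Frobenius action on local cohomology, F-injective rings,
parameter ideals and Frobenius closure. -/

set_option autoImplicit false

universe u

open IsLocalRing

namespace H503R3.FI

section Cech

variable {B : Type u} [CommRing B] {n : ℕ}

/-- The localisation of `B` at the product of the elements `x (j l)`. -/
abbrev L (x : Fin n → B) {i : ℕ} (j : Fin i → Fin n) : Type u :=
  Localization.Away (∏ l, x (j l))

theorem isUnit_prod (x : Fin n → B) {i i' : ℕ} (j' : Fin i' → Fin n) (j : Fin i → Fin n)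
    (h : Set.range j' ⊆ Set.range j) : IsUnit (algebraMap B (L x j) (∏ l, x (j' l))) := by
  have hu : IsUnit (algebraMap B (L x j) (∏ l, x (j l))) :=
    IsLocalization.Away.algebraMap_isUnit _
  rw [map_prod] at hu ⊢
  rw [IsUnit.prod_univ_iff] at hu ⊢
  intro l
  obtain ⟨m, hm⟩ := h ⟨l, rfl⟩
  rw [← hm]
  exact hu m

/-- The restriction map between localisations. -/
noncomputable def res (x : Fin n → B) {i i' : ℕ} (j' : Fin i' → Fin n) (j : Fin i → Fin n)
    (h : Set.range j' ⊆ Set.range j) : L x j' →+* L x j :=
  IsLocalization.Away.lift (∏ l, x (j' l)) (isUnit_prod x j' j h)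

/-- The `i`-th term of the Cech complex of `B` on `x`: a family of elements of the localisations,
indexed by all `i`-tuples of indices (for `i = 0` this is `B` itself). -/
abbrev Cochain (x : Fin n → B) (i : ℕ) : Type u := ∀ j : Fin i → Fin n, L x j

/-- The differential of the Cech complex. -/
noncomputable def d (x : Fin n → B) (i : ℕ) (c : Cochain x i) : Cochain x (i + 1) :=
  fun j => ∑ m : Fin (i + 1), (-1) ^ (m : ℕ) *
    res x (j ∘ m.succAbove) j (Set.range_comp_subset_range _ _) (c (j ∘ m.succAbove))

/-- Coboundaries of the Cech complex. -/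
def IsCoboundary (x : Fin n → B) : (i : ℕ) → Cochain x i → Prop
  | 0, c => c = 0
  | i + 1, c => ∃ b : Cochain x i, d x i b = c

end Cech

/-- `B` is F-injective: the Frobenius action (given by the `p`-th power on the localisations of
`B`) is injective on the cohomology of the Cech complex, that is, on `H^i_m(B)`, for every `i`
and every finite family `x` that generates an ideal with radical the maximal ideal. -/
def FInjective (p : ℕ) (B : Type u) [CommRing B] [IsLocalRing B] : Prop :=
  ∀ (n : ℕ) (x : Fin n → B), (Ideal.span (Set.range x)).radical = maximalIdeal B →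
    ∀ (i : ℕ) (c : Cochain x i), d x i c = 0 →
      IsCoboundary x i (fun j => c j ^ p) → IsCoboundary x i c

/-- `q` is a parameter ideal: it is generated by `d = dim B` elements and its radical is the
maximal ideal. -/
def IsParameterIdeal (B : Type u) [CommRing B] [IsLocalRing B] (q : Ideal B) : Prop :=
  ∃ (n : ℕ) (x : Fin n → B), (n : WithBot ℕ∞) = ringKrullDim B ∧
    q = Ideal.span (Set.range x) ∧ q.radical = maximalIdeal B

/-- The ideal `I^[N]` generated by the `N`-th powers of the elements of `I`. -/
def frobPower {B : Type u} [CommRing B] (I : Ideal B) (N : ℕ) : Ideal B :=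
  Ideal.span ((fun a => a ^ N) '' (I : Set B))

/-- `I` is Frobenius closed: `z ^ (p ^ e) ∈ I^[p ^ e]` for some `e` implies `z ∈ I`. -/
def FrobeniusClosed (p : ℕ) {B : Type u} [CommRing B] (I : Ideal B) : Prop :=
  ∀ z : B, (∃ e : ℕ, z ^ (p ^ e) ∈ frobPower I (p ^ e)) → z ∈ I

end H503R3.FI
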