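import Pool.Agent.H503R3.FI.Stmts

set_option autoImplicit false

open IsLocalRing

namespace H503R3.FI

theorem final (hA : TaskA) (hB : TaskB) (hC1 : TaskC1) (hC2 : TaskC2) (hF : TaskF) (hG : TaskG)
    (hE : TaskE) :
    ∃ (k : Type) (_ : Field k) (R : Type) (_ : CommRing R) (_ : Algebra k R) (_ : IsLocalRing R),
      CharP R 2 ∧ IsNoetherianRing R ∧ Algebra.EssFiniteType k R ∧
      (∀ P ∈ minimalPrimes R, ringKrullDim (R ⧸ P) = ringKrullDim R) ∧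
      FInjective 2 R ∧ ∃ q : Ideal R, IsParameterIdeal R q ∧ ¬ FrobeniusClosed 2 q := by
  obtain ⟨k, K, _, _, _, α, β, s, t, hK⟩ := hA
  have hchar := hK.char
  obtain ⟨R0, _, π, hπ⟩ := hB k K α β s t hK
  obtain ⟨φ, hφ⟩ := hC1 k
  obtain ⟨φ', hφ', -⟩ := hC2 2 (by norm_num) _ φ (orig k).primeCompl (T k) hφ
  obtain ⟨h1, h2, ⟨_, h3⟩, h4, h5, hloc, h6⟩ := hF k s t R0 π hπ
  obtain ⟨x, hx1, z, hz1, hz2⟩ := hG k s t R0 π hπ hloc h6
  refine ⟨k, inferInstance, RR π, inferInstance, inferInstance, hloc, h1, h2, h3, ?_,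
    hE k s t R0 π hπ ⟨φ', hφ'⟩ hloc h6, Ideal.span (Set.range x), ?_, ?_⟩
  · intro P hP
    rw [h5 P hP, h4]
  · exact ⟨4, x, by rw [h4]; rfl, rfl, hx1⟩
  · intro hcl
    apply hz1
    apply hcl z
    refine ⟨1, ?_⟩
    rw [pow_one]
    refine Ideal.span_mono ?_ hz2
    rintro _ ⟨i, rfl⟩
    exact ⟨x i, Ideal.subset_span ⟨i, rfl⟩, rfl⟩

end H503R3.FI
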