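import Pool.Agent.H503R3.FI.Cech

set_option autoImplicit false

open IsLocalRing

namespace H503R3.FI

section split

variable {B : Type} [CommRing B] {φ : B → B}

theorem FSplit.zero {p : ℕ} (h : FSplit p B φ) : φ 0 = 0 := by
  have := h.add 0 0
  rw [add_zero] at this
  exact left_eq_add.mp this

theorem FSplit.neg {p : ℕ} (h : FSplit p B φ) (a : B) : φ (-a) = -φ a := by
  have := h.add a (-a)
  rw [add_neg_cancel, h.zero] at this
  exact (neg_eq_of_add_eq_zero_right this.symm).symm

theorem FSplit.pow {p : ℕ} (h : FSplit p B φ) (a : B) : φ (a ^ p) = a := by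
  have := h.smul a 1
  rwa [mul_one, h.one, mul_one] at this

theorem FSplit.sign {p : ℕ} (h : FSplit p B φ) (m : ℕ) (a : B) :
    φ ((-1) ^ m * a) = (-1) ^ m * φ a := by
  rcases neg_one_pow_eq_or B m with hm | hm
  · rw [hm, one_mul, one_mul]
  · rw [hm, neg_one_mul, neg_one_mul, h.neg]

theorem FSplit.sum {p : ℕ} (h : FSplit p B φ) {ι : Type*} (s : Finset ι) (f : ι → B) :
    φ (∑ i ∈ s, f i) = ∑ i ∈ s, φ (f i) := by
  classical
  induction s using Finset.induction_on with
  | empty => simp [h.zero]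
  | insert a s ha ih => rw [Finset.sum_insert ha, Finset.sum_insert ha, h.add, ih]

/-- Naturality of extensions of a splitting to localisations. -/
theorem FSplit.natural {p : ℕ} (h : FSplit p B φ) (S : Submonoid B) (B' B'' : Type)
    [CommRing B'] [Algebra B B'] [IsLocalization S B'] [CommRing B''] [Algebra B B'']
    {φ' : B' → B'} {φ'' : B'' → B''} (h' : FSplit p B' φ') (h'' : FSplit p B'' φ'')
    (hc' : ∀ b, φ' (algebraMap B B' b) = algebraMap B B' (φ b))
    (hc'' : ∀ b, φ'' (algebraMap B B'' b) = algebraMap B B'' (φ b))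
    (g : B' →+* B'') (hg : ∀ b, g (algebraMap B B' b) = algebraMap B B'' b) (hp : 0 < p)
    (z : B') : φ'' (g z) = g (φ' z) := by
  obtain ⟨a, s, rfl⟩ := IsLocalization.exists_mk'_eq S z
  set z := IsLocalization.mk' B' a s with hz
  have h1 : algebraMap B B' (s : B) ^ p * z = algebraMap B B' ((s : B) ^ (p - 1) * a) := by
    rw [map_mul, map_pow, ← IsLocalization.mk'_spec B' a s, ← hz]
    obtain ⟨q, rfl⟩ : ∃ q, p = q + 1 := ⟨p - 1, by omega⟩
    rw [Nat.add_sub_cancel, pow_succ]
    ring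
  have h2 : algebraMap B B' (s : B) * φ' z = algebraMap B B' (φ ((s : B) ^ (p - 1) * a)) := by
    rw [← h'.smul, h1, hc']
  have h3 : algebraMap B B'' (s : B) * φ'' (g z) =
      algebraMap B B'' (φ ((s : B) ^ (p - 1) * a)) := by
    rw [← h''.smul, ← hc'', ← hg, ← hg ((s : B) ^ (p - 1) * a), ← h1, map_mul, map_pow]
  have hu : IsUnit (algebraMap B B'' (s : B)) := by
    rw [← hg]
    exact (IsLocalization.map_units B' s).map g
  apply hu.mul_left_cancel
  rw [h3, ← hg, ← h2, map_mul, hg]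

end split

/-- A Frobenius splitting of `B` acts on Cech complexes. -/
theorem exists_splitC (hC2 : TaskC2) {B : Type} [CommRing B] {φ : B → B} (h : FSplit 2 B φ)
    {n : ℕ} (x : Fin n → B) :
    ∃ Φ : ∀ i, Cochain x i → Cochain x i,
      (∀ i c, Φ (i + 1) (d x i c) = d x i (Φ i c)) ∧ ∀ i c, Φ i (fun j => c j ^ 2) = c := by
  have key : ∀ (i : ℕ) (j : Fin i → Fin n), ∃ φ' : L x j → L x j, FSplit 2 (L x j) φ' ∧
      ∀ b, φ' (algebraMap B (L x j) b) = algebraMap B (L x j) (φ b) := fun i j =>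
    hC2 2 (by norm_num) B φ (Submonoid.powers (∏ l, x (j l))) (L x j) h
  choose ψ hψ hψ2 using key
  refine ⟨fun i c j => ψ i j (c j), ?_, ?_⟩
  · intro i c
    funext j
    change ψ (i + 1) j (d x i c j) = _
    rw [d_apply, d_apply, (hψ _ _).sum]
    apply Finset.sum_congr rfl
    intro m _
    rw [(hψ _ _).sign]
    congr 1
    exact h.natural (Submonoid.powers (∏ l, x ((j ∘ m.succAbove) l))) (L x (j ∘ m.succAbove))
      (L x j) (hψ i (j ∘ m.succAbove)) (hψ (i + 1) j) (hψ2 _ _) (hψ2 _ _)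
      (res x (j ∘ m.succAbove) j (Set.range_comp_subset_range _ _))
      (res_algebraMap _ _ _ _) (by norm_num) _
  · intro i c
    funext j
    exact (hψ i j).pow _

end H503R3.FI
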