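import Pool.Agent.H503R3.FI.Curve
import Pool.Agent.H503R3.FI.SplitL

set_option autoImplicit false

open IsLocalRing

namespace H503R3.FI

section pull

variable {T0 R0 : Type} [CommRing T0] [CommRing R0] {π : T0 →+* R0} {n : ℕ}

/-- First projection. -/
def f1 (π : T0 →+* R0) : RR π →+* T0 := (RingHom.fst T0 T0).comp (RR π).subtype

/-- Second projection. -/
def f2 (π : T0 →+* R0) : RR π →+* T0 := (RingHom.snd T0 T0).comp (RR π).subtype

theorem f1_f2 (r : RR π) : π (f1 π r) = π (f2 π r) := r.2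

theorem RR_ext {r r' : RR π} (h1 : f1 π r = f1 π r') (h2 : f2 π r = f2 π r') : r = r' :=
  Subtype.ext (Prod.ext h1 h2)

theorem exists_RR (a b : T0) (h : π a = π b) : ∃ r : RR π, f1 π r = a ∧ f2 π r = b :=
  ⟨⟨(a, b), h⟩, rfl, rfl⟩

variable {x : Fin n → RR π} {x1 x2 : Fin n → T0} {xb : Fin n → R0}
  (h1 : ∀ l, f1 π (x l) = x1 l) (h2 : ∀ l, f2 π (x l) = x2 l)
  (hb1 : ∀ l, π (x1 l) = xb l) (hb2 : ∀ l, π (x2 l) = xb l)

include h1 in
theorem f1_prod {i : ℕ} (j : Fin i → Fin n) : f1 π (∏ l, x (j l)) = ∏ l, x1 (j l) := by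
  rw [map_prod]
  exact Finset.prod_congr rfl fun l _ => h1 _

include h2 in
theorem f2_prod {i : ℕ} (j : Fin i → Fin n) : f2 π (∏ l, x (j l)) = ∏ l, x2 (j l) := by
  rw [map_prod]
  exact Finset.prod_congr rfl fun l _ => h2 _

theorem pull_injective {i : ℕ} (j : Fin i → Fin n) (c : L x j)
    (hc1 : mapL (f1 π) h1 j c = 0) (hc2 : mapL (f2 π) h2 j c = 0) : c = 0 := by
  obtain ⟨a, s, hz⟩ := IsLocalization.exists_mk'_eq (Submonoid.powers (∏ l, x (j l))) c
  have hs := IsLocalization.mk'_spec (L x j) a s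
  rw [hz] at hs
  have e1 : algebraMap T0 (L x1 j) (f1 π a) = 0 := by
    rw [← mapL_algebraMap (f1 π) h1 j, ← hs, map_mul, hc1, zero_mul]
  have e2 : algebraMap T0 (L x2 j) (f2 π a) = 0 := by
    rw [← mapL_algebraMap (f2 π) h2 j, ← hs, map_mul, hc2, zero_mul]
  rw [IsLocalization.map_eq_zero_iff (Submonoid.powers (∏ l, x1 (j l)))] at e1
  rw [IsLocalization.map_eq_zero_iff (Submonoid.powers (∏ l, x2 (j l)))] at e2
  obtain ⟨⟨_, m1, rfl⟩, e1⟩ := e1
  obtain ⟨⟨_, m2, rfl⟩, e2⟩ := e2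
  have e : (∏ l, x (j l)) ^ (m1 + m2) * a = 0 := by
    apply RR_ext
    · rw [map_mul, map_pow, f1_prod h1, map_zero, pow_add]
      linear_combination ((∏ l, x1 (j l)) ^ m2) * e1
    · rw [map_mul, map_pow, f2_prod h2, map_zero, pow_add]
      linear_combination ((∏ l, x2 (j l)) ^ m1) * e2
  have ea : algebraMap (RR π) (L x j) a = 0 := by
    have hu : IsUnit (algebraMap (RR π) (L x j) ((∏ l, x (j l)) ^ (m1 + m2))) := by
      rw [map_pow]
      exact (IsLocalization.Away.algebraMap_isUnit _).pow _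
    apply hu.mul_left_cancel
    rw [← map_mul, e, map_zero, mul_zero]
  have hu : IsUnit (algebraMap (RR π) (L x j) (s : RR π)) := IsLocalization.map_units _ s
  apply hu.mul_right_cancel
  rw [hs, ea, zero_mul]

theorem pull_surjective {i : ℕ} (j : Fin i → Fin n) (g1 : L x1 j) (g2 : L x2 j)
    (hg : mapL π hb1 j g1 = mapL π hb2 j g2) :
    ∃ g : L x j, mapL (f1 π) h1 j g = g1 ∧ mapL (f2 π) h2 j g = g2 := by
  obtain ⟨a1, s1, hz1⟩ := IsLocalization.exists_mk'_eq (Submonoid.powers (∏ l, x1 (j l))) g1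
  obtain ⟨a2, s2, hz2⟩ := IsLocalization.exists_mk'_eq (Submonoid.powers (∏ l, x2 (j l))) g2
  have hs1 := IsLocalization.mk'_spec (L x1 j) a1 s1
  have hs2 := IsLocalization.mk'_spec (L x2 j) a2 s2
  rw [hz1] at hs1
  rw [hz2] at hs2
  obtain ⟨m1, hm1⟩ := s1.2
  obtain ⟨m2, hm2⟩ := s2.2
  have hm1' : (s1 : T0) = (∏ l, x1 (j l)) ^ m1 := hm1.symm
  have hm2' : (s2 : T0) = (∏ l, x2 (j l)) ^ m2 := hm2.symm
  rw [hm1', map_pow] at hs1
  rw [hm2', map_pow] at hs2
  set F1 := ∏ l, x1 (j l) with hF1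
  set F2 := ∏ l, x2 (j l) with hF2
  -- common exponent
  have e1 : g1 * algebraMap T0 (L x1 j) F1 ^ (m1 + m2) =
      algebraMap T0 (L x1 j) (a1 * F1 ^ m2) := by
    rw [map_mul, ← hs1, map_pow, pow_add]
    ring
  have e2 : g2 * algebraMap T0 (L x2 j) F2 ^ (m1 + m2) =
      algebraMap T0 (L x2 j) (a2 * F2 ^ m1) := by
    rw [map_mul, ← hs2, map_pow, pow_add]
    ring
  have p1 : π F1 = ∏ l, xb (j l) := by
    rw [hF1, map_prod]
    exact Finset.prod_congr rfl fun l _ => hb1 _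
  have p2 : π F2 = ∏ l, xb (j l) := by
    rw [hF2, map_prod]
    exact Finset.prod_congr rfl fun l _ => hb2 _
  have e3 : algebraMap R0 (L xb j) (π (a1 * F1 ^ m2)) =
      algebraMap R0 (L xb j) (π (a2 * F2 ^ m1)) := by
    rw [← mapL_algebraMap π hb1 j, ← mapL_algebraMap π hb2 j, ← e1, ← e2, map_mul, map_mul, hg,
      map_pow, map_pow, mapL_algebraMap, mapL_algebraMap, p1, p2]
  rw [IsLocalization.eq_iff_exists (Submonoid.powers (∏ l, xb (j l)))] at e3
  obtain ⟨⟨_, M, rfl⟩, e3⟩ := e3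
  have e4 : π (F1 ^ M * (a1 * F1 ^ m2)) = π (F2 ^ M * (a2 * F2 ^ m1)) := by
    rw [map_mul π (F1 ^ M) _, map_mul π (F2 ^ M) _, map_pow π F1 M, map_pow π F2 M, p1, p2]
    exact e3
  obtain ⟨r, hr1, hr2⟩ := exists_RR _ _ e4
  have q1 := f1_prod (π := π) h1 j
  have q2 := f2_prod (π := π) h2 j
  let s : Submonoid.powers (∏ l, x (j l)) :=
    ⟨(∏ l, x (j l)) ^ (M + (m1 + m2)), Submonoid.pow_mem _ (Submonoid.mem_powers _) _⟩
  refine ⟨IsLocalization.mk' (L x j) r s, ?_, ?_⟩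
  · have hsp := congrArg (mapL (f1 π) h1 j) (IsLocalization.mk'_spec (L x j) r s)
    rw [map_mul, mapL_algebraMap, mapL_algebraMap, hr1] at hsp
    have hs' : f1 π (s : RR π) = F1 ^ (M + (m1 + m2)) := by
      change f1 π ((∏ l, x (j l)) ^ (M + (m1 + m2))) = _
      rw [map_pow, q1]
    rw [hs', map_pow, map_mul, map_pow, ← e1] at hsp
    have hu : IsUnit (algebraMap T0 (L x1 j) F1 ^ (M + (m1 + m2))) :=
      (IsLocalization.Away.algebraMap_isUnit _).pow _
    apply hu.mul_right_cancel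
    rw [hsp, pow_add]
    ring
  · have hsp := congrArg (mapL (f2 π) h2 j) (IsLocalization.mk'_spec (L x j) r s)
    rw [map_mul, mapL_algebraMap, mapL_algebraMap, hr2] at hsp
    have hs' : f2 π (s : RR π) = F2 ^ (M + (m1 + m2)) := by
      change f2 π ((∏ l, x (j l)) ^ (M + (m1 + m2))) = _
      rw [map_pow, q2]
    rw [hs', map_pow, map_mul, map_pow, ← e2] at hsp
    have hu : IsUnit (algebraMap T0 (L x2 j) F2 ^ (M + (m1 + m2))) :=
      (IsLocalization.Away.algebraMap_isUnit _).pow _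
    apply hu.mul_right_cancel
    rw [hsp, pow_add]
    ring

end pull

end H503R3.FI
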