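import Pool.Agent.H503R3.FI.Defs

set_option autoImplicit false

open IsLocalRing

namespace H503R3.FI

/-- Field data: `K = k(α)`, `α ^ 2 = β`, `β ^ 2 = s β + t`, with no purely inseparable elements. -/
structure FieldData (k K : Type) [Field k] [Field K] [Algebra k K] (α β : K) (s t : k) :
    Prop where
  char : CharP k 2
  sqa : α ^ 2 = β
  sqb : β ^ 2 = algebraMap k K s * β + algebraMap k K t
  indep : ∀ a b c e : k, algebraMap k K a + algebraMap k K b * α + algebraMap k K c * β +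
    algebraMap k K e * (α * β) = 0 → a = 0 ∧ b = 0 ∧ c = 0 ∧ e = 0
  span : ∀ z : K, ∃ a b c e : k, z = algebraMap k K a + algebraMap k K b * α +
    algebraMap k K c * β + algebraMap k K e * (α * β)
  closed : ∀ z : K, (∃ c : k, z ^ 2 = algebraMap k K c) → ∃ c : k, z = algebraMap k K c

/-- The ideal of the origin in `k[X_0, …, X_3]`. -/
noncomputable abbrev orig (k : Type) [Field k] : Ideal (MvPolynomial (Fin 4) k) :=
  RingHom.ker (MvPolynomial.constantCoeff : MvPolynomial (Fin 4) k →+* k)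

instance orig_isPrime (k : Type) [Field k] : (orig k).IsPrime := RingHom.ker_isPrime _

/-- The local ring of affine 4-space at the origin. -/
abbrev T (k : Type) [Field k] : Type := Localization.AtPrime (orig k)

/-- The coordinates. -/
noncomputable def X (k : Type) [Field k] (i : Fin 4) : T k :=
  algebraMap (MvPolynomial (Fin 4) k) (T k) (MvPolynomial.X i)

/-- Constants. -/
noncomputable def cst (k : Type) [Field k] (a : k) : T k :=
  algebraMap (MvPolynomial (Fin 4) k) (T k) (MvPolynomial.C a)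

/-- The map `π : T k → R0 = {f ∈ K[y]_(y) : f(0) ∈ k}`, `X_i ↦ y, yα, yβ, yαβ`. -/
structure PiData (k : Type) [Field k] (s t : k) (R0 : Type) [CommRing R0] (π : T k →+* R0) :
    Prop where
  dom : IsDomain R0
  surj : Function.Surjective π
  dim1 : ∀ a : R0, a ≠ 0 → ∀ f : R0, ¬ IsUnit f → ∃ N : ℕ, a ∣ f ^ N
  root : ∀ a b c : R0, b ≠ 0 → a ^ 2 = c * b ^ 2 → b ∣ a
  rel2 : π (X k 2 ^ 2) = π (cst k s * X k 1 ^ 2 + cst k t * X k 0 ^ 2)
  rel3 : π (X k 3 ^ 2) = π (cst k (s ^ 2 + t) * X k 1 ^ 2 + cst k (s * t) * X k 0 ^ 2)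
  notMem : π (X k 2) ∉ Ideal.span {π (X k 0), π (X k 1)}
  ne : π (X k 0) ≠ 0

/-- A Frobenius splitting of `B`. -/
structure FSplit (p : ℕ) (B : Type) [CommRing B] (φ : B → B) : Prop where
  add : ∀ a b, φ (a + b) = φ a + φ b
  smul : ∀ r a, φ (r ^ p * a) = r * φ a
  one : φ 1 = 1

/-- The amalgamated duplication `T ×_{R0} T`. -/
abbrev RR {T0 R0 : Type} [CommRing T0] [CommRing R0] (π : T0 →+* R0) : Subring (T0 × T0) :=
  (π.comp (RingHom.fst T0 T0)).eqLocus (π.comp (RingHom.snd T0 T0))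

/-- Task A: the field data exist. Take `k = RatFunc (RatFunc (ZMod 2))`, `s` the inner variable,
`t` the outer one, `L = k(β)` quadratic separable, `K = L(α)`; for instance
`L = QuadraticAlgebra k t s` (`ω ^ 2 = t + s ω`) and `K = QuadraticAlgebra L β 0`. -/
def TaskA : Prop :=
  ∃ (k K : Type) (_ : Field k) (_ : Field K) (_ : Algebra k K) (α β : K) (s t : k),
    FieldData k K α β s t

/-- Task B: the map `π`. -/
def TaskB : Prop :=
  ∀ (k K : Type) [Field k] [Field K] [Algebra k K] (α β : K) (s t : k),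
    FieldData k K α β s t →
      ∃ (R0 : Type) (_ : CommRing R0) (π : T k →+* R0), PiData k s t R0 π

/-- Task C1: a polynomial ring over a field of characteristic 2 is Frobenius split. -/
def TaskC1 : Prop :=
  ∀ (k : Type) [Field k] [CharP k 2],
    ∃ φ : MvPolynomial (Fin 4) k → MvPolynomial (Fin 4) k, FSplit 2 _ φ

/-- Task C2: Frobenius splittings extend to localisations. -/
def TaskC2 : Prop :=
  ∀ (p : ℕ) (_ : 0 < p) (B : Type) [CommRing B] (φ : B → B) (S : Submonoid B) (B' : Type)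
    [CommRing B'] [Algebra B B'] [IsLocalization S B'], FSplit p B φ →
      ∃ φ' : B' → B', FSplit p B' φ' ∧ ∀ b, φ' (algebraMap B B' b) = algebraMap B B' (φ b)

/-- Task F: the ring `R = RR π` is Noetherian, local, essentially of finite type over `k`, of
dimension 4 and equidimensional, of characteristic 2. -/
def TaskF : Prop :=
  ∀ (k : Type) [Field k] [CharP k 2] (s t : k) (R0 : Type) [CommRing R0] (π : T k →+* R0),
    PiData k s t R0 π →
      CharP (RR π) 2 ∧ IsNoetherianRing (RR π) ∧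
      (∃ _ : Algebra k (RR π), Algebra.EssFiniteType k (RR π)) ∧
      ringKrullDim (RR π) = 4 ∧
      (∀ P ∈ minimalPrimes (RR π), ringKrullDim (RR π ⧸ P) = 4) ∧
      ∃ _ : IsLocalRing (RR π), ∀ r : RR π, r ∈ maximalIdeal (RR π) ↔ r.1.1 ∈ maximalIdeal (T k)

/-- Task F1. -/
def TaskF1 : Prop :=
  ∀ (k : Type) [Field k] [CharP k 2] (s t : k) (R0 : Type) [CommRing R0] (π : T k →+* R0),
    PiData k s t R0 π → CharP (RR π) 2 ∧
      ∃ _ : IsLocalRing (RR π), ∀ r : RR π, r ∈ maximalIdeal (RR π) ↔ r.1.1 ∈ maximalIdeal (T k)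

/-- Task F2. -/
def TaskF2 : Prop :=
  ∀ (k : Type) [Field k] [CharP k 2] (s t : k) (R0 : Type) [CommRing R0] (π : T k →+* R0),
    PiData k s t R0 π → IsNoetherianRing (RR π) ∧
      (∃ _ : Algebra k (RR π), Algebra.EssFiniteType k (RR π))

/-- Task F3. -/
def TaskF3 : Prop := ∀ (k : Type) [Field k], ringKrullDim (T k) = 4

/-- Task F4. -/
def TaskF4 : Prop :=
  TaskF3 → ∀ (k : Type) [Field k] [CharP k 2] (s t : k) (R0 : Type) [CommRing R0]
    (π : T k →+* R0), PiData k s t R0 π →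
      ringKrullDim (RR π) = 4 ∧ (∀ P ∈ minimalPrimes (RR π), ringKrullDim (RR π ⧸ P) = 4)

theorem taskF (h1 : TaskF1) (h2 : TaskF2) (h3 : TaskF3) (h4 : TaskF4) : TaskF := by
  intro k _ _ s t R0 _ π hπ
  obtain ⟨a1, a2⟩ := h1 k s t R0 π hπ
  obtain ⟨b1, b2⟩ := h2 k s t R0 π hπ
  obtain ⟨c1, c2⟩ := h4 h3 k s t R0 π hπ
  exact ⟨a1, b1, b2, c1, c2, a2⟩

/-- Task G: the ideal of `R = RR π` generated by the diagonal elements `X_0`, `X_1`,
`a_3 = X_2 ^ 2 - (s X_1 ^ 2 + t X_0 ^ 2)`, `a_4 = X_3 ^ 2 - ((s ^ 2 + t) X_1 ^ 2 + s t X_0 ^ 2)`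
is not Frobenius closed and has radical the maximal ideal. -/
def TaskG : Prop :=
  ∀ (k : Type) [Field k] [CharP k 2] (s t : k) (R0 : Type) [CommRing R0] (π : T k →+* R0),
    PiData k s t R0 π → ∀ (_ : IsLocalRing (RR π)),
      (∀ r : RR π, r ∈ maximalIdeal (RR π) ↔ r.1.1 ∈ maximalIdeal (T k)) →
      ∃ x : Fin 4 → RR π, (Ideal.span (Set.range x)).radical = maximalIdeal (RR π) ∧
        ∃ z : RR π, z ∉ Ideal.span (Set.range x) ∧
          z ^ 2 ∈ Ideal.span (Set.range fun i => x i ^ 2)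

/-- Task H: the first Cech cohomology part of `depth T ≥ 2`. -/
def TaskH : Prop :=
  ∀ (k : Type) [Field k] (n : ℕ) (x : Fin n → T k),
    (Ideal.span (Set.range x)).radical = maximalIdeal (T k) →
    ∀ c : Cochain x 1, d x 1 c = 0 → ∃ b : Cochain x 0, d x 0 b = c

/-- Task E: `R = RR π` is F-injective. -/
def TaskE : Prop :=
  ∀ (k : Type) [Field k] [CharP k 2] (s t : k) (R0 : Type) [CommRing R0] (π : T k →+* R0),
    PiData k s t R0 π → (∃ φ : T k → T k, FSplit 2 (T k) φ) → ∀ (_ : IsLocalRing (RR π)),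
      (∀ r : RR π, r ∈ maximalIdeal (RR π) ↔ r.1.1 ∈ maximalIdeal (T k)) →
      FInjective 2 (RR π)

end H503R3.FI
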