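import Pool.Agent.H503R3.FI.Stmts

set_option autoImplicit false

/-! Task B of the H503-FI project (helper133): the map `π`. -/

namespace H133FI

open Polynomial
open H503R3.FI (T orig FieldData PiData TaskB cst)

variable {k K : Type} [Field k] [Field K] [Algebra k K]

/-- coefficient vector -/
def ev (α β : K) : Fin 4 → K := ![1, α, β, α * β]

/-- the map to polynomials -/
noncomputable def phi (k : Type) {K : Type} [Field k] [Field K] [Algebra k K] (α β : K) :
    MvPolynomial (Fin 4) k →+* K[X] :=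
  MvPolynomial.eval₂Hom ((Polynomial.C).comp (algebraMap k K)) (fun i => C (ev α β i) * X)

/-- the map to power series -/
noncomputable def phi' (k : Type) {K : Type} [Field k] [Field K] [Algebra k K] (α β : K) :
    MvPolynomial (Fin 4) k →+* PowerSeries K :=
  (Polynomial.coeToPowerSeries.ringHom).comp (phi k α β)

lemma phi'_apply (α β : K) (p : MvPolynomial (Fin 4) k) :
    phi' k α β p = ((phi k α β p : K[X]) : PowerSeries K) := rfl

lemma phi_coeff0 (α β : K) (p : MvPolynomial (Fin 4) k) :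
    (phi k α β p).coeff 0 = algebraMap k K (MvPolynomial.constantCoeff p) := by
  have h : (Polynomial.constantCoeff (R := K)).comp (phi k α β) =
      (algebraMap k K).comp MvPolynomial.constantCoeff := by
    apply MvPolynomial.ringHom_ext
    · intro r
      simp [phi]
    · intro i
      simp [phi]
  have := congrArg (fun f => f p) h
  simpa using this

lemma phi'_isUnit (α β : K) (p : (orig k).primeCompl) : IsUnit (phi' k α β p.1) := by
  rw [PowerSeries.isUnit_iff_constantCoeff, isUnit_iff_ne_zero, phi'_apply,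
    ← PowerSeries.coeff_zero_eq_constantCoeff_apply, Polynomial.coeff_coe, phi_coeff0]
  have h : p.1 ∉ orig k := p.2
  rw [RingHom.mem_ker] at h
  rw [Ne, map_eq_zero]
  exact h

/-- the map `π` into power series -/
noncomputable def pl (k : Type) {K : Type} [Field k] [Field K] [Algebra k K] (α β : K) :
    T k →+* PowerSeries K :=
  IsLocalization.lift (M := (orig k).primeCompl) (g := phi' k α β) (phi'_isUnit α β)

lemma pl_alg (α β : K) (p : MvPolynomial (Fin 4) k) :
    pl k α β (algebraMap _ (T k) p) = phi' k α β p :=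
  IsLocalization.lift_eq _ _

/-- quotients of polynomials with denominator nonzero at the origin -/
def InV (f : PowerSeries K) : Prop :=
  ∃ G H : K[X], H.coeff 0 ≠ 0 ∧ (H : PowerSeries K) * f = G

lemma coe_ne_zero {H : K[X]} (h : H.coeff 0 ≠ 0) : (H : PowerSeries K) ≠ 0 := by
  intro h1
  apply h
  rw [← Polynomial.coeff_coe, h1]
  simp

lemma InV_div {a b q : PowerSeries K} (ha : InV a) (hb : InV b) (hb0 : b ≠ 0) (h : a = b * q) :
    InV q := by
  obtain ⟨Ga, Ha, hHa, ea⟩ := ha
  obtain ⟨Gb, Hb, hHb, eb⟩ := hb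
  have hGb : Gb ≠ 0 := by
    intro h0
    rw [h0] at eb
    have := mul_ne_zero (coe_ne_zero hHb) hb0
    rw [eb] at this
    simp at this
  have hfin : FiniteMultiplicity (X : K[X]) Gb :=
    Polynomial.finiteMultiplicity_of_degree_pos_of_monic (by simp) monic_X hGb
  obtain ⟨Gb', e1, e2⟩ := hfin.exists_eq_pow_mul_and_not_dvd
  set m := multiplicity (X : K[X]) Gb with hm
  rw [Polynomial.X_dvd_iff] at e2
  have h1 : ((Ha : PowerSeries K) * (Gb : PowerSeries K)) * q = (Hb : PowerSeries K) * Ga := by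
    rw [← ea, ← eb, h]
    ring
  have h2 : (PowerSeries.X : PowerSeries K) ^ m ∣ ((Hb * Ga : K[X]) : PowerSeries K) := by
    refine ⟨(Ha : PowerSeries K) * Gb' * q, ?_⟩
    rw [Polynomial.coe_mul, ← h1, e1]
    simp
    ring
  rw [PowerSeries.X_pow_dvd_iff] at h2
  have h3 : (X : K[X]) ^ m ∣ Hb * Ga := by
    rw [Polynomial.X_pow_dvd_iff]
    intro d hd
    have := h2 d hd
    rwa [Polynomial.coeff_coe] at this
  obtain ⟨G, hG⟩ := h3
  refine ⟨G, Ha * Gb', ?_, ?_⟩
  · rw [Polynomial.mul_coeff_zero]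
    exact mul_ne_zero hHa e2
  · have h4 : ((X : K[X]) ^ m : PowerSeries K) * (((Ha * Gb' : K[X]) : PowerSeries K) * q) =
        ((X : K[X]) ^ m : PowerSeries K) * G := by
      have h5 : ((X : K[X]) ^ m : PowerSeries K) * (G : PowerSeries K) =
          (Hb : PowerSeries K) * Ga := by
        rw [← Polynomial.coe_mul, hG]
        simp
      rw [h5, ← h1, e1]
      simp
      ring
    refine mul_left_cancel₀ ?_ h4
    rw [Polynomial.coe_X]
    exact pow_ne_zero _ PowerSeries.X_ne_zero

lemma InV_mul {a b : PowerSeries K} (ha : InV a) (hb : InV b) : InV (a * b) := by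
  obtain ⟨Ga, Ha, hHa, ea⟩ := ha
  obtain ⟨Gb, Hb, hHb, eb⟩ := hb
  refine ⟨Ga * Gb, Ha * Hb, ?_, ?_⟩
  · rw [Polynomial.mul_coeff_zero]
    exact mul_ne_zero hHa hHb
  · rw [Polynomial.coe_mul, Polynomial.coe_mul, ← ea, ← eb]
    ring

lemma InV_one : InV (1 : PowerSeries K) := ⟨1, 1, by simp, by simp⟩

lemma InV_pow {a : PowerSeries K} (ha : InV a) (n : ℕ) : InV (a ^ n) := by
  induction n with
  | zero => simpa using InV_one
  | succ n ih =>
    rw [pow_succ]
    exact InV_mul ih ha

section data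

variable {α β : K} {s t : k}

lemma phi_X (i : Fin 4) : phi k α β (MvPolynomial.X i) = C (ev α β i) * X := by
  simp [phi]

lemma phi_C (a : k) : phi k α β (MvPolynomial.C a) = C (algebraMap k K a) := by
  simp [phi]

lemma X_mul_mem (hd : FieldData k K α β s t) (g : K[X]) : X * g ∈ (phi k α β).range := by
  induction g using Polynomial.induction_on' with
  | add p q hp hq =>
    rw [mul_add]
    exact add_mem hp hq
  | monomial n z =>
    obtain ⟨a, b, c, e, hz⟩ := hd.span z
    refine ⟨(MvPolynomial.C a * MvPolynomial.X 0 + MvPolynomial.C b * MvPolynomial.X 1 +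
      MvPolynomial.C c * MvPolynomial.X 2 + MvPolynomial.C e * MvPolynomial.X 3) *
      MvPolynomial.X 0 ^ n, ?_⟩
    rw [← Polynomial.C_mul_X_pow_eq_monomial, hz]
    simp only [map_mul, map_add, map_pow, phi_X, phi_C]
    simp [ev]
    ring

lemma mem_phi (hd : FieldData k K α β s t) (g : K[X]) (c : k)
    (hg : g.coeff 0 = algebraMap k K c) : ∃ p, phi k α β p = g ∧ MvPolynomial.constantCoeff p = c := by
  obtain ⟨p, hp⟩ := X_mul_mem hd g.divX
  refine ⟨p + MvPolynomial.C c, ?_, ?_⟩
  · rw [map_add, hp, phi_C, ← hg]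
    conv_rhs => rw [← Polynomial.X_mul_divX_add g]
  · have h1 := phi_coeff0 α β p
    rw [hp] at h1
    simp at h1
    rw [eq_comm, map_eq_zero] at h1
    rw [map_add, h1]
    simp

lemma pl_mem_iff (hd : FieldData k K α β s t) (f : PowerSeries K) :
    f ∈ (pl k α β).range ↔
      InV f ∧ ∃ c : k, PowerSeries.constantCoeff f = algebraMap k K c := by
  constructor
  · rintro ⟨z, rfl⟩
    obtain ⟨a, b, rfl⟩ := IsLocalization.exists_mk'_eq (orig k).primeCompl z
    have h1 : ((phi k α β b.1 : K[X]) : PowerSeries K) *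
        pl k α β (IsLocalization.mk' (T k) a b) = ((phi k α β a : K[X]) : PowerSeries K) := by
      rw [← phi'_apply, ← phi'_apply, ← pl_alg, ← pl_alg, ← map_mul, mul_comm,
        IsLocalization.mk'_spec]
    have hb : MvPolynomial.constantCoeff b.1 ≠ 0 := by
      have h : b.1 ∉ orig k := b.2
      rwa [RingHom.mem_ker] at h
    refine ⟨⟨_, _, ?_, h1⟩, MvPolynomial.constantCoeff a / MvPolynomial.constantCoeff b.1, ?_⟩
    · rw [phi_coeff0, Ne, map_eq_zero]
      exact hb
    · have h2 := congrArg PowerSeries.constantCoeff h1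
      rw [map_mul, ← PowerSeries.coeff_zero_eq_constantCoeff_apply,
        ← PowerSeries.coeff_zero_eq_constantCoeff_apply,
        ← PowerSeries.coeff_zero_eq_constantCoeff_apply, Polynomial.coeff_coe,
        Polynomial.coeff_coe, phi_coeff0, phi_coeff0] at h2
      rw [← PowerSeries.coeff_zero_eq_constantCoeff_apply, map_div₀, eq_div_iff, mul_comm, h2]
      rw [Ne, map_eq_zero]
      exact hb
  · rintro ⟨⟨G, H, hH, e⟩, c, hc⟩
    have h0 : H.coeff 0 * algebraMap k K c = G.coeff 0 := by
      have h0 := congrArg PowerSeries.constantCoeff e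
      rw [map_mul, hc] at h0
      rw [← Polynomial.coeff_coe H, ← Polynomial.coeff_coe G,
        PowerSeries.coeff_zero_eq_constantCoeff_apply,
        PowerSeries.coeff_zero_eq_constantCoeff_apply]
      exact h0
    obtain ⟨b, hb1, hb2⟩ := mem_phi hd (C (H.coeff 0)⁻¹ * H) 1 (by
      simp [hH])
    obtain ⟨a, ha1, ha2⟩ := mem_phi hd (C (H.coeff 0)⁻¹ * G) c (by
      rw [Polynomial.mul_coeff_zero, ← h0]
      simp
      field_simp)
    have hb : b ∈ (orig k).primeCompl := by
      intro h
      rw [SetLike.mem_coe, RingHom.mem_ker, hb2] at h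
      exact one_ne_zero h
    refine ⟨IsLocalization.mk' (T k) a ⟨b, hb⟩, ?_⟩
    have h1 : ((phi k α β b : K[X]) : PowerSeries K) *
        pl k α β (IsLocalization.mk' (T k) a ⟨b, hb⟩) =
        ((phi k α β a : K[X]) : PowerSeries K) := by
      have h3 := IsLocalization.mk'_spec' (T k) a (⟨b, hb⟩ : (orig k).primeCompl)
      rw [← phi'_apply, ← phi'_apply, ← pl_alg, ← pl_alg, ← map_mul, ← h3]
    have h2 : ((phi k α β b : K[X]) : PowerSeries K) * f =
        ((phi k α β a : K[X]) : PowerSeries K) := by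
      rw [hb1, ha1, Polynomial.coe_mul, Polynomial.coe_mul, ← e]
      ring
    refine mul_left_cancel₀ ?_ (h1.trans h2.symm)
    apply coe_ne_zero
    rw [phi_coeff0, hb2]
    simp

end data

lemma pl_X (α β : K) (i : Fin 4) :
    pl k α β (H503R3.FI.X k i) = PowerSeries.C (ev α β i) * PowerSeries.X := by
  rw [H503R3.FI.X, pl_alg, phi'_apply, phi_X, Polynomial.coe_mul, Polynomial.coe_C,
    Polynomial.coe_X]

lemma pl_cst (α β : K) (a : k) :
    pl k α β (cst k a) = PowerSeries.C (algebraMap k K a) := by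
  rw [cst, pl_alg, phi'_apply, phi_C, Polynomial.coe_C]

/-- Task B -/
theorem taskB : TaskB := by
  intro k K _ _ _ α β s t hd
  have hin : ∀ f : (pl k α β).range, InV f.1 ∧ ∃ c : k, PowerSeries.constantCoeff f.1 =
      algebraMap k K c := fun f => (pl_mem_iff hd f.1).1 f.2
  refine ⟨(pl k α β).range, inferInstance, (pl k α β).rangeRestrict, ?_⟩
  refine ⟨inferInstance, RingHom.rangeRestrict_surjective _, ?_, ?_, ?_, ?_, ?_, ?_⟩
  · -- dim1
    intro a ha f hf
    have ha' : a.1 ≠ 0 := fun h => ha (Subtype.ext h)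
    obtain ⟨hfV, c, hc⟩ := hin f
    have hf0 : PowerSeries.constantCoeff f.1 = 0 := by
      by_contra h
      apply hf
      have h1 : f.1 * (f.1)⁻¹ = 1 := PowerSeries.mul_inv_cancel _ h
      have hf1 : f.1 ≠ 0 := by
        intro h2
        rw [h2] at h
        simp at h
      have h2 : (f.1)⁻¹ ∈ (pl k α β).range := by
        rw [pl_mem_iff hd]
        refine ⟨InV_div InV_one hfV hf1 h1.symm, c⁻¹, ?_⟩
        rw [PowerSeries.constantCoeff_inv, hc, map_inv₀]
      exact IsUnit.of_mul_eq_one ⟨(f.1)⁻¹, h2⟩ (Subtype.ext h1)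
    obtain ⟨m, hm⟩ := IsDiscreteValuationRing.associated_pow_irreducible ha'
      (PowerSeries.X_prime (R := K)).irreducible
    have h1 : a.1 ∣ f.1 ^ m :=
      hm.dvd.trans (pow_dvd_pow_of_dvd (PowerSeries.X_dvd_iff.2 hf0) m)
    obtain ⟨w, hw⟩ := h1
    have h2 : f.1 ^ (m + 1) = a.1 * (w * f.1) := by
      rw [pow_succ, hw, mul_assoc]
    have h3 : w * f.1 ∈ (pl k α β).range := by
      rw [pl_mem_iff hd]
      refine ⟨InV_div (InV_pow hfV (m + 1)) (hin a).1 ha' h2, 0, ?_⟩
      rw [map_mul, hf0]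
      simp
    exact ⟨m + 1, ⟨w * f.1, h3⟩, Subtype.ext h2⟩
  · -- root
    intro a b c hb h
    have hb' : b.1 ≠ 0 := fun h => hb (Subtype.ext h)
    have h' : a.1 ^ 2 = c.1 * b.1 ^ 2 := congrArg Subtype.val h
    have hdvd : b.1 ∣ a.1 := by
      rcases ValuationRing.dvd_total b.1 a.1 with h1 | h1
      · exact h1
      · obtain ⟨e, he⟩ := h1
        by_cases ha0 : a.1 = 0
        · rw [ha0]
          exact dvd_zero _
        · have h2 : a.1 ^ 2 * (c.1 * e ^ 2) = a.1 ^ 2 * 1 := by
            rw [mul_one]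
            conv_rhs => rw [h', he]
            ring
          have h3 := mul_left_cancel₀ (pow_ne_zero 2 ha0) h2
          have h4 : IsUnit e := IsUnit.of_mul_eq_one (e * c.1) (by rw [← h3]; ring)
          obtain ⟨u, rfl⟩ := h4
          refine ⟨(↑u⁻¹ : PowerSeries K), ?_⟩
          rw [he, mul_assoc, Units.mul_inv, mul_one]
    obtain ⟨v, hv⟩ := hdvd
    have hv2 : v ^ 2 = c.1 := by
      have h1 : b.1 ^ 2 * v ^ 2 = b.1 ^ 2 * c.1 := by
        rw [← mul_pow, ← hv, h']
        ring
      exact mul_left_cancel₀ (pow_ne_zero 2 hb') h1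
    obtain ⟨_, c0, hc0⟩ := hin c
    have hv0 : ∃ d : k, PowerSeries.constantCoeff v = algebraMap k K d := by
      apply hd.closed
      refine ⟨c0, ?_⟩
      rw [← map_pow, hv2, hc0]
    have hvm : v ∈ (pl k α β).range := by
      rw [pl_mem_iff hd]
      exact ⟨InV_div (hin a).1 (hin b).1 hb' hv, hv0⟩
    exact ⟨⟨v, hvm⟩, Subtype.ext hv⟩
  · -- rel2
    apply Subtype.ext
    change pl k α β (H503R3.FI.X k 2 ^ 2) = pl k α β (cst k s * H503R3.FI.X k 1 ^ 2 +
      cst k t * H503R3.FI.X k 0 ^ 2)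
    rw [map_add, map_mul, map_mul, map_pow, map_pow, map_pow, pl_X, pl_X, pl_X, pl_cst, pl_cst]
    have e1 : ev α β 2 = β := rfl
    have e2 : ev α β 1 = α := rfl
    have e3 : ev α β 0 = 1 := rfl
    rw [e1, e2, e3]
    have h1 : (PowerSeries.C β : PowerSeries K) ^ 2 =
        PowerSeries.C (algebraMap k K s) * PowerSeries.C α ^ 2 +
        PowerSeries.C (algebraMap k K t) := by
      rw [← map_pow, ← map_pow, ← map_mul, ← map_add, hd.sqb, hd.sqa]
    rw [mul_pow, h1]
    simp only [map_one]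
    ring
  · -- rel3
    apply Subtype.ext
    change pl k α β (H503R3.FI.X k 3 ^ 2) =
      pl k α β (cst k (s ^ 2 + t) * H503R3.FI.X k 1 ^ 2 + cst k (s * t) * H503R3.FI.X k 0 ^ 2)
    rw [map_add, map_mul, map_mul, map_pow, map_pow, map_pow, pl_X, pl_X, pl_X, pl_cst, pl_cst]
    have e1 : ev α β 3 = α * β := rfl
    have e2 : ev α β 1 = α := rfl
    have e3 : ev α β 0 = 1 := rfl
    rw [e1, e2, e3]
    have h0 : (α * β) ^ 2 = algebraMap k K (s ^ 2 + t) * α ^ 2 + algebraMap k K (s * t) := by
      rw [mul_pow, hd.sqb, hd.sqa, map_add, map_pow, map_mul]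
      have h1 := hd.sqb
      linear_combination (algebraMap k K s) * h1
    have h1 : (PowerSeries.C (α * β) : PowerSeries K) ^ 2 =
        PowerSeries.C (algebraMap k K (s ^ 2 + t)) * PowerSeries.C α ^ 2 +
        PowerSeries.C (algebraMap k K (s * t)) := by
      rw [← map_pow, ← map_pow, ← map_mul, ← map_add, h0]
    rw [mul_pow, h1]
    simp only [map_one]
    ring
  · -- notMem
    intro hmem
    rw [Ideal.mem_span_pair] at hmem
    obtain ⟨f, g, hfg⟩ := hmem
    have h1 : f.1 * pl k α β (H503R3.FI.X k 0) + g.1 * pl k α β (H503R3.FI.X k 1) =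
      pl k α β (H503R3.FI.X k 2) := congrArg Subtype.val hfg
    rw [pl_X, pl_X, pl_X] at h1
    have e1 : ev α β 2 = β := rfl
    have e2 : ev α β 1 = α := rfl
    have e3 : ev α β 0 = 1 := rfl
    rw [e1, e2, e3, ← mul_assoc, ← mul_assoc, ← add_mul] at h1
    have h2 := mul_right_cancel₀ PowerSeries.X_ne_zero h1
    have h3 := congrArg PowerSeries.constantCoeff h2
    obtain ⟨_, c, hc⟩ := hin f
    obtain ⟨_, d, hdd⟩ := hin g
    simp only [map_add, map_mul, PowerSeries.constantCoeff_C, hc, hdd, mul_one] at h3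
    have h4 := hd.indep c d (-1) 0 (by
      rw [← h3]
      simp)
    have h5 := h4.2.2.1
    simp at h5
  · -- ne
    intro h
    have h1 : pl k α β (H503R3.FI.X k 0) = 0 := congrArg Subtype.val h
    rw [pl_X] at h1
    have e3 : ev α β 0 = 1 := rfl
    rw [e3, map_one, one_mul] at h1
    exact PowerSeries.X_ne_zero h1

end H133FI
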