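import Pool.Agent.H503R3.FI.Stmts

/-! Task C1: a polynomial ring over a field of characteristic 2 is Frobenius split. -/

set_option autoImplicit false

open MvPolynomial

namespace H503R3.FI.TaskC1

/-- The field `k` as a module over itself through Frobenius. -/
def Fk (k : Type) : Type := k

noncomputable instance (k : Type) [Field k] : AddCommGroup (Fk k) :=
  inferInstanceAs (AddCommGroup k)

noncomputable instance (k : Type) [Field k] [CharP k 2] : Module k (Fk k) :=
  Module.compHom k (frobenius k 2)

theorem Fk_smul (k : Type) [Field k] [CharP k 2] (c : k) (a : Fk k) :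
    c • a = (show Fk k from (c ^ 2 * (show k from a))) := rfl

/-- The Frobenius, as a linear map. -/
noncomputable def fr (k : Type) [Field k] [CharP k 2] : k →ₗ[k] Fk k where
  toFun c := (show Fk k from c ^ 2)
  map_add' a b := by
    have : (a + b) ^ 2 = a ^ 2 + b ^ 2 := add_pow_char a b 2
    exact this
  map_smul' c a := by
    have : (c * a) ^ 2 = c ^ 2 * a ^ 2 := by ring
    exact this

theorem exists_kappa (k : Type) [Field k] [CharP k 2] :
    ∃ κ : k → k, (∀ a b, κ (a + b) = κ a + κ b) ∧ (∀ c a, κ (c ^ 2 * a) = c * κ a) ∧ κ 1 = 1 := by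
  have hker : LinearMap.ker (fr k) = ⊥ := by
    rw [LinearMap.ker_eq_bot']
    intro m hm
    have : m ^ 2 = 0 := hm
    exact pow_eq_zero_iff (two_ne_zero) |>.1 this
  obtain ⟨g, hg⟩ := LinearMap.exists_leftInverse_of_injective (fr k) hker
  refine ⟨fun a => g (show Fk k from a), fun a b => ?_, fun c a => ?_, ?_⟩
  · exact map_add g (show Fk k from a) (show Fk k from b)
  · have := map_smul g c (show Fk k from a)
    rw [smul_eq_mul] at this
    exact this
  · have h1 := LinearMap.congr_fun hg (1 : k)
    have h2 : fr k 1 = (show Fk k from (1 : k)) := by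
      change ((1 : k) ^ 2) = 1
      ring
    rw [LinearMap.comp_apply, h2] at h1
    exact h1

/-- Halving an exponent vector. -/
noncomputable def half (m : Fin 4 →₀ ℕ) : Fin 4 →₀ ℕ := m.mapRange (· / 2) (by norm_num)

theorem half_two (m : Fin 4 →₀ ℕ) : half (2 • m) = m := by
  ext i
  simp [half]

/-- The splitting. -/
noncomputable def phi (k : Type) [Field k] (κ : k → k) (P : MvPolynomial (Fin 4) k) :
    MvPolynomial (Fin 4) k :=
  ∑ m ∈ P.support.image half, monomial m (κ (coeff (2 • m) P))

theorem coeff_phi (k : Type) [Field k] (κ : k → k) (h0 : κ 0 = 0) (P : MvPolynomial (Fin 4) k)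
    (m : Fin 4 →₀ ℕ) : coeff m (phi k κ P) = κ (coeff (2 • m) P) := by
  classical
  rw [phi, coeff_sum]
  simp only [coeff_monomial]
  rw [Finset.sum_ite_eq']
  split_ifs with h
  · rfl
  · have : coeff (2 • m) P = 0 := by
      by_contra hne
      apply h
      rw [Finset.mem_image]
      exact ⟨2 • m, mem_support_iff.2 hne, half_two m⟩
    rw [this, h0]

theorem two_smul_le (u m : Fin 4 →₀ ℕ) : 2 • u ≤ 2 • m ↔ u ≤ m := by
  constructor
  · intro h i
    have := h i
    simp only [Finsupp.smul_apply, smul_eq_mul] at this
    omega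
  · intro h i
    have := h i
    simp only [Finsupp.smul_apply, smul_eq_mul]
    omega

theorem two_smul_sub (u m : Fin 4 →₀ ℕ) : 2 • m - 2 • u = 2 • (m - u) := by
  ext i
  simp only [Finsupp.tsub_apply, Finsupp.smul_apply, smul_eq_mul]
  omega

theorem taskC1 : TaskC1 := by
  intro k _ _
  obtain ⟨κ, hadd, hsm, hone⟩ := exists_kappa k
  have h0 : κ 0 = 0 := by
    have := hadd 0 0
    rw [add_zero] at this
    exact left_eq_add.1 this
  refine ⟨phi k κ, ⟨?_, ?_, ?_⟩⟩
  · intro a b
    ext m
    rw [coeff_add, coeff_phi k κ h0, coeff_phi k κ h0, coeff_phi k κ h0, coeff_add, hadd]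
  · intro r a
    have key : ∀ (r a : MvPolynomial (Fin 4) k), phi k κ (r ^ 2 * a) = r * phi k κ a := by
      intro r a
      induction r using MvPolynomial.induction_on' with
      | monomial u c =>
        ext m
        rw [coeff_phi k κ h0, monomial_pow, coeff_monomial_mul', coeff_monomial_mul']
        simp only [two_smul_le]
        split_ifs with h
        · rw [two_smul_sub, hsm, coeff_phi k κ h0]
        · exact h0
      | add p q hp hq =>
        have : (p + q) ^ 2 = p ^ 2 + q ^ 2 := add_pow_char p q 2
        rw [this, add_mul, add_mul, ← hp, ← hq]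
        ext m
        rw [coeff_add, coeff_phi k κ h0, coeff_phi k κ h0, coeff_phi k κ h0, coeff_add, hadd]
    exact key r a
  · ext m
    rw [coeff_phi k κ h0]
    classical
    rw [coeff_one, coeff_one]
    by_cases hm : m = 0
    · subst hm
      simp [hone]
    · have h2 : ¬ (0 = 2 • m) := by
        intro h
        apply hm
        ext i
        have := DFunLike.congr_fun h i
        simp only [Finsupp.coe_zero, Pi.zero_apply, Finsupp.smul_apply, smul_eq_mul] at this ⊢
        omega
      rw [if_neg h2, if_neg (fun h => hm h.symm), h0]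

end H503R3.FI.TaskC1
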