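import Pool.Agent.H503R3.FI.Stmts

/-! Task C2: Frobenius splittings extend to localisations. -/

set_option autoImplicit false

namespace H503R3.FI.TaskC2

open H503R3.FI

section

variable {p : ℕ} {B : Type} [CommRing B] {φ : B → B} {S : Submonoid B} {B' : Type}
    [CommRing B'] [Algebra B B'] [IsLocalization S B']

/-- `w` is the value of the extended splitting at `z`. -/
def Val (p : ℕ) (φ : B → B) (S : Submonoid B) (z w : B') : Prop :=
  ∃ (s : S) (a : B), z * algebraMap B B' s ^ p = algebraMap B B' a ∧
    w * algebraMap B B' s = algebraMap B B' (φ a)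

theorem val_unique (hp : 0 < p) (h : FSplit p B φ) {z w w' : B'}
    (h1 : Val p φ S z w) (h2 : Val p φ S z w') : w = w' := by
  obtain ⟨s, a, hs1, hs2⟩ := h1
  obtain ⟨t, b, ht1, ht2⟩ := h2
  have hsu : IsUnit (algebraMap B B' s) := IsLocalization.map_units B' s
  have htu : IsUnit (algebraMap B B' t) := IsLocalization.map_units B' t
  have heq : algebraMap B B' (a * (t : B) ^ p) = algebraMap B B' (b * (s : B) ^ p) := by
    rw [map_mul, map_mul, map_pow, map_pow, ← hs1, ← ht1]
    ring
  obtain ⟨u, hu⟩ := (IsLocalization.eq_iff_exists S B').1 heq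
  have huu : IsUnit (algebraMap B B' u) := IsLocalization.map_units B' u
  obtain ⟨q, rfl⟩ : ∃ q, p = q + 1 := ⟨p - 1, by omega⟩
  have h3 : ((u : B) * t) ^ (q + 1) * a = ((u : B) * s) ^ (q + 1) * b := by
    calc ((u : B) * t) ^ (q + 1) * a = (u : B) ^ q * (u * (a * (t : B) ^ (q + 1))) := by ring
      _ = (u : B) ^ q * (u * (b * (s : B) ^ (q + 1))) := by rw [hu]
      _ = ((u : B) * s) ^ (q + 1) * b := by ring
  have h4 : (u : B) * t * φ a = (u : B) * s * φ b := by
    rw [← h.smul, ← h.smul, h3]
  have h5 := congrArg (algebraMap B B') h4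
  simp only [map_mul] at h5
  rw [← hs2, ← ht2] at h5
  have h6 : (algebraMap B B' u * (algebraMap B B' s * algebraMap B B' t)) * w =
      (algebraMap B B' u * (algebraMap B B' s * algebraMap B B' t)) * w' := by
    linear_combination h5
  exact (huu.mul (hsu.mul htu)).mul_left_cancel h6

theorem val_of (h1 : 0 < p) {z : B'} (s : S) (a : B)
    (hz : z * algebraMap B B' s ^ p = algebraMap B B' a) :
    Val p φ S z (IsLocalization.mk' B' (φ a) s) :=
  ⟨s, a, hz, IsLocalization.mk'_spec B' (φ a) s⟩

theorem exists_den (hp : 0 < p) (S : Submonoid B) [IsLocalization S B'] (z : B') :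
    ∃ (s : S) (a : B), z * algebraMap B B' s ^ p = algebraMap B B' a := by
  obtain ⟨a, s, rfl⟩ := IsLocalization.exists_mk'_eq S z
  obtain ⟨q, rfl⟩ : ∃ q, p = q + 1 := ⟨p - 1, by omega⟩
  refine ⟨s, a * (s : B) ^ q, ?_⟩
  rw [pow_succ', ← mul_assoc, IsLocalization.mk'_spec, map_mul, map_pow]

end

theorem taskC2 : TaskC2 := by
  intro p hp B _ φ S B' _ _ _ h
  have hex : ∀ z : B', ∃ w : B', Val p φ S z w := by
    intro z
    obtain ⟨s, a, hz⟩ := exists_den hp S z
    exact ⟨_, val_of hp s a hz⟩
  choose φ' hφ' using hex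
  have key : ∀ (z : B') (s : S) (a : B), z * algebraMap B B' s ^ p = algebraMap B B' a →
      φ' z * algebraMap B B' s = algebraMap B B' (φ a) := by
    intro z s a hz
    rw [val_unique hp h (hφ' z) (val_of hp s a hz)]
    exact IsLocalization.mk'_spec B' (φ a) s
  refine ⟨φ', ⟨?_, ?_, ?_⟩, ?_⟩
  · intro z1 z2
    obtain ⟨s, a, ha⟩ := exists_den hp S z1
    obtain ⟨t, b, hb⟩ := exists_den hp S z2
    have h1 := key z1 s a ha
    have h2 := key z2 t b hb
    have h3 := key (z1 + z2) (s * t) ((t : B) ^ p * a + (s : B) ^ p * b) (by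
      rw [Submonoid.coe_mul, map_mul, map_add, map_mul, map_mul, map_pow, map_pow, ← ha, ← hb]
      ring)
    rw [h.add, h.smul, h.smul, Submonoid.coe_mul, map_mul, map_add, map_mul, map_mul,
      ← h1, ← h2] at h3
    have hu : IsUnit (algebraMap B B' s * algebraMap B B' t) :=
      (IsLocalization.map_units B' s).mul (IsLocalization.map_units B' t)
    apply hu.mul_right_cancel
    linear_combination h3
  · intro r z
    obtain ⟨b, t, rfl⟩ := IsLocalization.exists_mk'_eq S r
    obtain ⟨s, a, ha⟩ := exists_den hp S z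
    have h1 := key z s a ha
    have hr : IsLocalization.mk' B' b t * algebraMap B B' t = algebraMap B B' b :=
      IsLocalization.mk'_spec B' b t
    have h3 := key (IsLocalization.mk' B' b t ^ p * z) (t * s) (b ^ p * a) (by
      rw [Submonoid.coe_mul, map_mul, map_mul, map_pow, ← ha, ← hr]
      ring)
    rw [h.smul, Submonoid.coe_mul, map_mul, map_mul, ← h1, ← hr] at h3
    have hu : IsUnit (algebraMap B B' t * algebraMap B B' s) :=
      (IsLocalization.map_units B' t).mul (IsLocalization.map_units B' s)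
    apply hu.mul_right_cancel
    linear_combination h3
  · have h1 := key 1 1 1 (by simp)
    simpa [h.one] using h1
  · intro b
    have h1 := key (algebraMap B B' b) 1 b (by simp)
    simpa using h1

end H503R3.FI.TaskC2
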