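import Pool.Agent.H503R3.FI.Pull

set_option autoImplicit false

open IsLocalRing

namespace H503R3.FI

section general

variable {B : Type} [CommRing B] {n : ℕ}

theorem two_eq_zero_L (h2 : (2 : B) = 0) (x : Fin n → B) {i : ℕ} (j : Fin i → Fin n) :
    (2 : L x j) = 0 := by
  have := congrArg (algebraMap B (L x j)) h2
  rwa [map_ofNat, map_zero] at this

theorem sum_sq {A : Type*} [CommRing A] (h2 : (2 : A) = 0) {ι : Type*} (s : Finset ι)
    (f : ι → A) : (∑ i ∈ s, f i) ^ 2 = ∑ i ∈ s, f i ^ 2 := by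
  classical
  induction s using Finset.induction_on with
  | empty => simp
  | insert a s ha ih =>
    rw [Finset.sum_insert ha, Finset.sum_insert ha, ← ih]
    linear_combination (f a * ∑ i ∈ s, f i) * h2

theorem sign_eq {A : Type*} [CommRing A] (h2 : (2 : A) = 0) (m : ℕ) : (-1 : A) ^ m = 1 := by
  have h : (-1 : A) = 1 := by linear_combination -h2
  rw [h, one_pow]

theorem d_sq (h2 : (2 : B) = 0) (x : Fin n → B) (i : ℕ) (c : Cochain x i) :
    d x i (fun j => c j ^ 2) = fun j => (d x i c j) ^ 2 := by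
  funext j
  have h2' := two_eq_zero_L h2 x j
  rw [d_apply, d_apply, sum_sq h2']
  apply Finset.sum_congr rfl
  intro m _
  rw [sign_eq h2', one_mul, one_mul, map_pow]

end general

/-- The main argument. -/
theorem main {T0 R0 : Type} [CommRing T0] [CommRing R0] [IsDomain T0] [IsDomain R0]
    (h2T : (2 : T0) = 0)
    (π : T0 →+* R0) (hsurj : Function.Surjective π)
    (hroot : ∀ a b c : R0, b ≠ 0 → a ^ 2 = c * b ^ 2 → b ∣ a)
    {n : ℕ} {x : Fin n → RR π} {x1 x2 : Fin n → T0} {xb : Fin n → R0}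
    (h1 : ∀ l, f1 π (x l) = x1 l) (h2 : ∀ l, f2 π (x l) = x2 l)
    (hb1 : ∀ l, π (x1 l) = xb l) (hb2 : ∀ l, π (x2 l) = xb l)
    (j0 : Fin n) (hj0 : xb j0 ≠ 0) (hdiv : ∀ l, ∃ N : ℕ, xb j0 ∣ xb l ^ N)
    (hT1 : ∀ c : Cochain x1 1, d x1 1 c = 0 → ∃ b : Cochain x1 0, d x1 0 b = c)
    (hT2 : ∀ c : Cochain x2 1, d x2 1 c = 0 → ∃ b : Cochain x2 0, d x2 0 b = c)
    (Φ1 : ∀ i, Cochain x1 i → Cochain x1 i)
    (hΦ1 : ∀ i c, Φ1 (i + 1) (d x1 i c) = d x1 i (Φ1 i c))
    (hΦ1' : ∀ i c, Φ1 i (fun j => c j ^ 2) = c)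
    (Φ2 : ∀ i, Cochain x2 i → Cochain x2 i)
    (hΦ2 : ∀ i c, Φ2 (i + 1) (d x2 i c) = d x2 i (Φ2 i c))
    (hΦ2' : ∀ i c, Φ2 i (fun j => c j ^ 2) = c)
    (i : ℕ) (c : Cochain x (i + 1)) (hc : d x (i + 1) c = 0) (b : Cochain x i)
    (hb : d x i b = fun j => c j ^ 2) : ∃ g : Cochain x i, d x i g = c := by
  set c1 := mapC (f1 π) h1 (i + 1) c with hc1
  set c2 := mapC (f2 π) h2 (i + 1) c with hc2
  set b1 := mapC (f1 π) h1 i b with hb1'
  set b2 := mapC (f2 π) h2 i b with hb2'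
  have hd1 : d x1 i b1 = fun j => c1 j ^ 2 := by
    rw [hb1', ← mapC_d, hb]
    funext j
    exact map_pow _ _ _
  have hd2 : d x2 i b2 = fun j => c2 j ^ 2 := by
    rw [hb2', ← mapC_d, hb]
    funext j
    exact map_pow _ _ _
  set g1 := Φ1 i b1 with hg1
  set g2 := Φ2 i b2 with hg2
  have hdg1 : d x1 i g1 = c1 := by rw [hg1, ← hΦ1, hd1, hΦ1']
  have hdg2 : d x2 i g2 = c2 := by rw [hg2, ← hΦ2, hd2, hΦ2']
  -- compatibility of the two projections
  have hcomm : ∀ (i : ℕ) (c : Cochain x i),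
      mapC π hb1 i (mapC (f1 π) h1 i c) = mapC π hb2 i (mapC (f2 π) h2 i c) := by
    intro i c
    funext j
    have e1 : ∀ l, (π.comp (f1 π)) (x l) = xb l := fun l => by
      rw [RingHom.comp_apply, h1, hb1]
    have e2 : ∀ l, (π.comp (f2 π)) (x l) = xb l := fun l => by
      rw [RingHom.comp_apply, h2, hb2]
    have e : (mapL (π.comp (f1 π)) e1 j : L x j →+* L xb j) = mapL (π.comp (f2 π)) e2 j := by
      apply hom_ext_L
      intro b
      rw [mapL_algebraMap, mapL_algebraMap, RingHom.comp_apply, RingHom.comp_apply, f1_f2]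
    change mapL π hb1 j (mapL (f1 π) h1 j (c j)) = mapL π hb2 j (mapL (f2 π) h2 j (c j))
    rw [mapL_mapL _ _ _ _ e1, mapL_mapL _ _ _ _ e2, e]
  set h := mapC π hb1 i g1 - mapC π hb2 i g2 with hh
  have hdh : d xb i h = 0 := by
    rw [hh, d_sub, ← mapC_d, ← mapC_d, hdg1, hdg2, hc1, hc2, hcomm, sub_self]
  have h2R : (2 : R0) = 0 := by
    have := congrArg π h2T
    rwa [map_ofNat, map_zero] at this
  -- the key claim: `h` comes from a coboundary that lifts to `T`
  have key : ∃ r1 : Cochain x1 i, mapC π hb1 i r1 = h ∧ d x1 i r1 = 0 := by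
    match i, c, hc, b, hb, c1, hc1, c2, hc2, b1, hb1', b2, hb2', hd1, hd2, g1, hg1, g2, hg2,
      hdg1, hdg2, h, hh, hdh with
    | 0, c, hc, b, hb, c1, hc1, c2, hc2, b1, hb1', b2, hb2', hd1, hd2, g1, hg1, g2, hg2,
      hdg1, hdg2, h, hh, hdh =>
      have h0 := exact_zero hj0 h hdh
      refine ⟨0, ?_, ?_⟩
      · rw [h0]
        funext j
        exact map_zero _
      · funext j
        rw [d_apply]
        change ∑ m : Fin 1, (-1) ^ (m : ℕ) * res x1 _ j _ 0 = 0
        simp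
    | 1, c, hc, b, hb, c1, hc1, c2, hc2, b1, hb1', b2, hb2', hd1, hd2, g1, hg1, g2, hg2,
      hdg1, hdg2, h, hh, hdh =>
      obtain ⟨t1, ht1⟩ := hT1 ((fun j => g1 j ^ 2) - b1) (by
        rw [d_sub, d_sq h2T, hdg1, hd1, sub_self])
      obtain ⟨t2, ht2⟩ := hT2 ((fun j => g2 j ^ 2) - b2) (by
        rw [d_sub, d_sq h2T, hdg2, hd2, sub_self])
      have hsq : d xb 0 (mapC π hb1 0 t1 - mapC π hb2 0 t2) = fun j => h j ^ 2 := by
        rw [d_sub, ← mapC_d, ← mapC_d, ht1, ht2, mapC_sub, mapC_sub, hb1', hb2', hcomm]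
        funext j
        have h2' := two_eq_zero_L h2R xb j
        rw [hh]
        simp only [Pi.sub_apply, mapC, map_pow]
        linear_combination ((mapL π hb1 j) (g1 j) * (mapL π hb2 j) (g2 j) -
          (mapL π hb2 j) (g2 j) ^ 2) * h2'
      obtain ⟨r, hr⟩ := exact_one hj0 hdiv hroot h hdh _ hsq
      choose r1 hr1 using fun j => mapL_surjective π hsurj hb1 j (r j)
      refine ⟨d x1 0 r1, ?_, d_d _ _ _⟩
      rw [mapC_d, ← hr]
      congr 1
      funext j
      exact hr1 j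
    | i + 2, c, hc, b, hb, c1, hc1, c2, hc2, b1, hb1', b2, hb2', hd1, hd2, g1, hg1, g2, hg2,
      hdg1, hdg2, h, hh, hdh =>
      obtain ⟨r, hr⟩ := exact_ge_two hdiv i h hdh
      choose r1 hr1 using fun j => mapL_surjective π hsurj hb1 j (r j)
      refine ⟨d x1 (i + 1) r1, ?_, d_d _ _ _⟩
      rw [mapC_d, ← hr]
      congr 1
      funext j
      exact hr1 j
  obtain ⟨r1, hr1, hr2⟩ := key
  have hpull : ∀ j, ∃ g : L x j, mapL (f1 π) h1 j g = (g1 - r1) j ∧
      mapL (f2 π) h2 j g = g2 j := by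
    intro j
    apply pull_surjective h1 h2 hb1 hb2
    have := congrFun hr1 j
    rw [Pi.sub_apply, map_sub]
    have e : mapL π hb1 j (r1 j) = mapL π hb1 j (g1 j) - mapL π hb2 j (g2 j) := this
    rw [e]
    ring
  choose g hga hgb using hpull
  refine ⟨g, ?_⟩
  have e1 : mapC (f1 π) h1 i g = g1 - r1 := funext hga
  have e2 : mapC (f2 π) h2 i g = g2 := funext hgb
  have e3 : mapC (f1 π) h1 (i + 1) (d x i g - c) = 0 := by
    rw [mapC_sub, mapC_d, e1, d_sub, hr2, hdg1, sub_zero, hc1, sub_self]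
  have e4 : mapC (f2 π) h2 (i + 1) (d x i g - c) = 0 := by
    rw [mapC_sub, mapC_d, e2, hdg2, hc2, sub_self]
  have e5 : d x i g - c = 0 := by
    funext j
    exact pull_injective h1 h2 j _ (congrFun e3 j) (congrFun e4 j)
  exact sub_eq_zero.mp e5

theorem taskE (hC2 : TaskC2) (hH : TaskH) : TaskE := by
  intro k _ _ s t R0 _ π hπ hφ hloc hmax n x hx i c hc hcob
  obtain ⟨φ, hφ⟩ := hφ
  have hdomT : IsDomain (T k) :=
    IsLocalization.isDomain_localization (orig k).primeCompl_le_nonZeroDivisors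
  have hdomR := hπ.dom
  have h2T : (2 : T k) = 0 := by
    have h2 : (2 : k) = 0 := CharTwo.two_eq_zero
    have := congrArg (algebraMap k (T k)) h2
    rwa [map_ofNat, map_zero] at this
  have hlocR : IsLocalRing R0 := IsLocalRing.of_surjective' π hπ.surj
  set x1 : Fin n → T k := fun l => f1 π (x l) with hx1
  set x2 : Fin n → T k := fun l => f2 π (x l) with hx2
  set xb : Fin n → R0 := fun l => π (x1 l) with hxb
  have hb2 : ∀ l, π (x2 l) = xb l := fun l => (f1_f2 (x l)).symm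
  -- the elements of `x` are in the maximal ideal
  have hxm : ∀ l, x l ∈ maximalIdeal (RR π) := by
    intro l
    rw [← hx]
    exact Ideal.le_radical (Ideal.subset_span ⟨l, rfl⟩)
  have hx1m : ∀ l, x1 l ∈ maximalIdeal (T k) := fun l => (hmax (x l)).mp (hxm l)
  have hxbnu : ∀ l, ¬ IsUnit (xb l) := by
    intro l hu
    have h1 : IsLocalHom π := IsLocalHom.of_surjective π hπ.surj
    exact hx1m l (h1.map_nonunit _ hu)
  -- radicals
  have hdiag : ∀ a ∈ maximalIdeal (T k), ∃ N : ℕ,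
      a ^ N ∈ Ideal.span (Set.range x1) ∧ a ^ N ∈ Ideal.span (Set.range x2) := by
    intro a ha
    obtain ⟨r, hr1, hr2⟩ := exists_RR (π := π) a a rfl
    have hr : r ∈ maximalIdeal (RR π) := by
      rw [hmax]
      change f1 π r ∈ _
      rw [hr1]
      exact ha
    rw [← hx] at hr
    obtain ⟨N, hN⟩ := hr
    refine ⟨N, ?_, ?_⟩
    · have := Ideal.mem_map_of_mem (f1 π) hN
      rw [Ideal.map_span, map_pow, hr1, ← Set.range_comp] at this
      exact this
    · have := Ideal.mem_map_of_mem (f2 π) hN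
      rw [Ideal.map_span, map_pow, hr2, ← Set.range_comp] at this
      exact this
  have hx2m : ∀ l, x2 l ∈ maximalIdeal (T k) := by
    intro l
    rw [mem_maximalIdeal, mem_nonunits_iff]
    intro hu
    apply hxbnu l
    rw [← hb2]
    exact hu.map π
  have hrad1 : (Ideal.span (Set.range x1)).radical = maximalIdeal (T k) := by
    apply le_antisymm
    · refine (Ideal.IsPrime.radical_le_iff (maximalIdeal.isMaximal (T k)).isPrime).mpr ?_
      rw [Ideal.span_le]
      rintro _ ⟨l, rfl⟩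
      exact hx1m l
    · intro a ha
      obtain ⟨N, hN, -⟩ := hdiag a ha
      exact ⟨N, hN⟩
  have hrad2 : (Ideal.span (Set.range x2)).radical = maximalIdeal (T k) := by
    apply le_antisymm
    · refine (Ideal.IsPrime.radical_le_iff (maximalIdeal.isMaximal (T k)).isPrime).mpr ?_
      rw [Ideal.span_le]
      rintro _ ⟨l, rfl⟩
      exact hx2m l
    · intro a ha
      obtain ⟨N, -, hN⟩ := hdiag a ha
      exact ⟨N, hN⟩
  -- some `xb j0` is nonzero
  have hX0 : X k 0 ∈ maximalIdeal (T k) := by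
    rw [X, IsLocalization.AtPrime.to_map_mem_maximal_iff (T k) (orig k), RingHom.mem_ker]
    simp
  obtain ⟨j0, hj0⟩ : ∃ j0, xb j0 ≠ 0 := by
    by_contra hcon
    push Not at hcon
    obtain ⟨N, hN, -⟩ := hdiag _ hX0
    have h1 := Ideal.mem_map_of_mem π hN
    rw [Ideal.map_span, map_pow, ← Set.range_comp] at h1
    have h2 : Ideal.span (Set.range (π ∘ x1)) = ⊥ := by
      rw [Ideal.span_eq_bot]
      rintro _ ⟨l, rfl⟩
      exact hcon l
    rw [h2, Submodule.mem_bot] at h1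
    have hN0 : N ≠ 0 := by
      rintro rfl
      simp at h1
    exact hπ.ne ((pow_eq_zero_iff hN0).mp h1)
  have hdiv : ∀ l, ∃ N : ℕ, xb j0 ∣ xb l ^ N := fun l => hπ.dim1 _ hj0 _ (hxbnu l)
  obtain ⟨Φ1, hΦ1, hΦ1'⟩ := exists_splitC hC2 hφ x1
  obtain ⟨Φ2, hΦ2, hΦ2'⟩ := exists_splitC hC2 hφ x2
  match i, c, hc, hcob with
  | 0, c, hc, hcob =>
    change (fun j => c j ^ 2) = 0 at hcob
    change c = 0
    funext j
    have h0 : c j ^ 2 = 0 := congrFun hcob j
    obtain ⟨a, ha⟩ := algebraMap_surjective_zero x j (c j)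
    apply pull_injective (π := π) (x1 := x1) (x2 := x2) (fun _ => rfl) (fun _ => rfl) j
    · have e := congrArg (mapL (f1 π) (fun _ => rfl) j : L x j →+* L x1 j) h0
      rw [map_pow, map_zero, ← ha, mapL_algebraMap, ← map_pow] at e
      have hinj : Function.Injective (algebraMap (T k) (L x1 j)) :=
        algebraMap_injective_L x1 j (fun l => l.elim0)
      have e2 : f1 π a ^ 2 = 0 := hinj (by rw [e, map_zero])
      rw [← ha, mapL_algebraMap, pow_eq_zero_iff two_ne_zero |>.mp e2, map_zero]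
    · have e := congrArg (mapL (f2 π) (fun _ => rfl) j : L x j →+* L x2 j) h0
      rw [map_pow, map_zero, ← ha, mapL_algebraMap, ← map_pow] at e
      have hinj : Function.Injective (algebraMap (T k) (L x2 j)) :=
        algebraMap_injective_L x2 j (fun l => l.elim0)
      have e2 : f2 π a ^ 2 = 0 := hinj (by rw [e, map_zero])
      rw [← ha, mapL_algebraMap, pow_eq_zero_iff two_ne_zero |>.mp e2, map_zero]
  | i + 1, c, hc, hcob =>
    obtain ⟨b, hb⟩ := hcob
    exact main h2T π hπ.surj hπ.root (x1 := x1) (x2 := x2) (xb := xb) (fun _ => rfl)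
      (fun _ => rfl) (fun _ => rfl) hb2 j0 hj0 hdiv (hH k n x1 hrad1) (hH k n x2 hrad2)
      Φ1 hΦ1 hΦ1' Φ2 hΦ2 hΦ2' i c hc b hb

end H503R3.FI
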