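import Pool.Agent.H503R3.FI.Stmts

set_option autoImplicit false

open IsLocalRing

namespace H503R3.FI.TaskF2

theorem isNoetherianRing_T (k : Type) [Field k] : IsNoetherianRing (T k) :=
  IsLocalization.isNoetherianRing (orig k).primeCompl (T k) inferInstance

/-- The diagonal map. -/
def diag {T0 R0 : Type} [CommRing T0] [CommRing R0] (π : T0 →+* R0) : T0 →+* RR π :=
  RingHom.codRestrict ((RingHom.id T0).prod (RingHom.id T0)) (RR π) (fun _ => rfl)

theorem finite_diag {T0 R0 : Type} [CommRing T0] [IsNoetherianRing T0] [CommRing R0]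
    (π : T0 →+* R0) : (diag π).Finite := by
  letI : Algebra T0 (RR π) := (diag π).toAlgebra
  let ι : RR π →ₗ[T0] (T0 × T0) :=
    { toFun := fun r => r.1
      map_add' := fun _ _ => rfl
      map_smul' := fun c r => by
        rw [Algebra.smul_def]
        rfl }
  have hι : Function.Injective ι := Subtype.val_injective
  have : IsNoetherian T0 (RR π) := isNoetherian_of_injective ι hι
  show Module.Finite T0 (RR π)
  infer_instance

theorem taskF2 : TaskF2 := by
  intro k _ _ s t R0 _ π _
  haveI := isNoetherianRing_T k
  letI : Algebra (T k) (RR π) := (diag π).toAlgebra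
  haveI : Module.Finite (T k) (RR π) := finite_diag π
  refine ⟨IsNoetherianRing.of_finite (T k) (RR π), ?_⟩
  letI : Algebra k (RR π) := ((diag π).comp (algebraMap k (T k))).toAlgebra
  haveI : IsScalarTower k (T k) (RR π) := IsScalarTower.of_algebraMap_eq (fun _ => rfl)
  haveI : Algebra.EssFiniteType (MvPolynomial (Fin 4) k) (T k) :=
    Algebra.EssFiniteType.of_isLocalization (T k) (orig k).primeCompl
  haveI : Algebra.EssFiniteType k (T k) :=
    Algebra.EssFiniteType.comp k (MvPolynomial (Fin 4) k) (T k)
  exact ⟨inferInstance, Algebra.EssFiniteType.comp k (T k) (RR π)⟩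

end H503R3.FI.TaskF2
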