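import Pool.Agent.H503R3.FI.Stmts

/-! Task F4 (helper26): dimension of the amalgamated duplication. -/

set_option autoImplicit false

open IsLocalRing

namespace H503R3.FI.TaskF4

theorem mem_RR {T0 R0 : Type} [CommRing T0] [CommRing R0] (π : T0 →+* R0) (r : T0 × T0) :
    r ∈ RR π ↔ π r.1 = π r.2 := by
  rw [RingHom.mem_eqLocus]
  rfl

noncomputable def p1 {T0 R0 : Type} [CommRing T0] [CommRing R0] (π : T0 →+* R0) : RR π →+* T0 :=
  (RingHom.fst T0 T0).comp (RR π).subtype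

noncomputable def p2 {T0 R0 : Type} [CommRing T0] [CommRing R0] (π : T0 →+* R0) : RR π →+* T0 :=
  (RingHom.snd T0 T0).comp (RR π).subtype

theorem p1_surj {T0 R0 : Type} [CommRing T0] [CommRing R0] (π : T0 →+* R0) :
    Function.Surjective (p1 π) := fun a => ⟨⟨(a, a), (mem_RR π _).2 rfl⟩, rfl⟩

theorem p2_surj {T0 R0 : Type} [CommRing T0] [CommRing R0] (π : T0 →+* R0) :
    Function.Surjective (p2 π) := fun a => ⟨⟨(a, a), (mem_RR π _).2 rfl⟩, rfl⟩

theorem ker_mul {T0 R0 : Type} [CommRing T0] [CommRing R0] (π : T0 →+* R0) (x y : RR π)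
    (hx : p1 π x = 0) (hy : p2 π y = 0) : x * y = 0 := by
  have h1 : x.1.1 = 0 := hx
  have h2 : y.1.2 = 0 := hy
  apply Subtype.ext
  apply Prod.ext
  · show x.1.1 * y.1.1 = 0
    rw [h1, zero_mul]
  · show x.1.2 * y.1.2 = 0
    rw [h2, mul_zero]

theorem prime_ge {T0 R0 : Type} [CommRing T0] [CommRing R0] (π : T0 →+* R0) (P : Ideal (RR π))
    [hP : P.IsPrime] : RingHom.ker (p1 π) ≤ P ∨ RingHom.ker (p2 π) ≤ P := by
  by_contra hcon
  push Not at hcon
  obtain ⟨h1, h2⟩ := hcon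
  obtain ⟨x, hx, hxP⟩ := Set.not_subset.1 h1
  obtain ⟨y, hy, hyP⟩ := Set.not_subset.1 h2
  have hxy : x * y = 0 := ker_mul π x y ((RingHom.mem_ker).1 hx) ((RingHom.mem_ker).1 hy)
  rcases hP.mem_or_mem (by rw [hxy]; exact P.zero_mem : x * y ∈ P) with h | h
  · exact hxP h
  · exact hyP h

theorem dim_le {R : Type} [CommRing R] (I J : Ideal R) (n : WithBot ℕ∞)
    (hI : ringKrullDim (R ⧸ I) ≤ n) (hJ : ringKrullDim (R ⧸ J) ≤ n)
    (h : ∀ P : Ideal R, P.IsPrime → I ≤ P ∨ J ≤ P) : ringKrullDim R ≤ n := by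
  have key : ∀ (I : Ideal R), ringKrullDim (R ⧸ I) ≤ n → ∀ p : LTSeries (PrimeSpectrum R),
      I ≤ p.head.asIdeal → (p.length : WithBot ℕ∞) ≤ n := by
    intro I hI p hp
    rw [ringKrullDim_quotient] at hI
    refine le_trans ?_ hI
    have hmem : ∀ i, p i ∈ PrimeSpectrum.zeroLocus (I : Set R) := by
      intro i
      rw [PrimeSpectrum.mem_zeroLocus, SetLike.coe_subset_coe]
      exact hp.trans (p.monotone (Fin.zero_le i))
    let q : LTSeries (PrimeSpectrum.zeroLocus (I : Set R)) :=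
      LTSeries.mk p.length (fun i => ⟨p i, hmem i⟩) (by
        intro a b hab
        exact p.strictMono hab)
    exact Order.LTSeries.length_le_krullDim q
  show Order.krullDim (PrimeSpectrum R) ≤ n
  refine iSup_le fun p => ?_
  rcases h p.head.asIdeal p.head.isPrime with h1 | h1
  · exact key I hI p h1
  · exact key J hJ p h1

theorem taskF4 : TaskF4 := by
  intro hF3 k _ _ s t R0 _ π hπ
  have e1 : ringKrullDim (RR π ⧸ RingHom.ker (p1 π)) = 4 := by
    rw [ringKrullDim_eq_of_ringEquiv (RingHom.quotientKerEquivOfSurjective (p1_surj π)), hF3 k]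
  have e2 : ringKrullDim (RR π ⧸ RingHom.ker (p2 π)) = 4 := by
    rw [ringKrullDim_eq_of_ringEquiv (RingHom.quotientKerEquivOfSurjective (p2_surj π)), hF3 k]
  have i1 : (RingHom.ker (p1 π)).IsPrime := RingHom.ker_isPrime _
  have i2 : (RingHom.ker (p2 π)).IsPrime := RingHom.ker_isPrime _
  refine ⟨le_antisymm ?_ ?_, ?_⟩
  · exact dim_le _ _ _ e1.le e2.le (fun P hP => prime_ge π P)
  · rw [← e1]
    exact ringKrullDim_quotient_le _
  · intro P hP
    have hPp : P.IsPrime := hP.1.1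
    rcases prime_ge π P with h | h
    · have : P = RingHom.ker (p1 π) := le_antisymm (hP.2 ⟨i1, bot_le⟩ h) h
      rw [this, e1]
    · have : P = RingHom.ker (p2 π) := le_antisymm (hP.2 ⟨i2, bot_le⟩ h) h
      rw [this, e2]

end H503R3.FI.TaskF4
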