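import Pool.Agent.H503R3.FI.Stmts

set_option autoImplicit false

open IsLocalRing

namespace H503R3.FI.TaskG

variable {k : Type} [Field k]

/-- The exponents of the monomials `X_0`, `X_1`, `X_2 ^ 2`. -/
noncomputable def expo : Set (Fin 4 →₀ ℕ) :=
  {Finsupp.single 0 1, Finsupp.single 1 1, Finsupp.single 2 2}

noncomputable def mono (k : Type) [Field k] : Ideal (MvPolynomial (Fin 4) k) :=
  Ideal.span ((fun m => MvPolynomial.monomial m (1 : k)) '' expo)

theorem mono_mem {f : MvPolynomial (Fin 4) k} (h : f * MvPolynomial.X 3 ^ 2 ∈ mono k) :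
    f ∈ mono k := by
  rw [mono, MvPolynomial.mem_ideal_span_monomial_image] at h ⊢
  intro m hm
  have hm' : m + Finsupp.single 3 2 ∈ (f * MvPolynomial.X 3 ^ 2).support := by
    rw [MvPolynomial.mem_support_iff] at hm ⊢
    rw [MvPolynomial.X_pow_eq_monomial, MvPolynomial.coeff_mul_monomial, mul_one]
    exact hm
  obtain ⟨e, he, hle⟩ := h _ hm'
  refine ⟨e, he, ?_⟩
  intro i
  have := hle i
  rcases he with rfl | rfl | rfl
  · fin_cases i <;> simp_all
  · fin_cases i <;> simp_all
  · fin_cases i <;> simp_all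

theorem mem_of_mul {w : T k}
    (h : w * X k 3 ^ 2 ∈ (mono k).map (algebraMap (MvPolynomial (Fin 4) k) (T k))) :
    w ∈ (mono k).map (algebraMap (MvPolynomial (Fin 4) k) (T k)) := by
  have hinj : Function.Injective (algebraMap (MvPolynomial (Fin 4) k) (T k)) :=
    IsLocalization.injective (M := (orig k).primeCompl) (T k)
      ((orig k).primeCompl_le_nonZeroDivisors)
  rw [IsLocalization.mem_map_algebraMap_iff (orig k).primeCompl] at h ⊢
  obtain ⟨⟨a, u⟩, hau⟩ := h
  obtain ⟨f, g, hfg⟩ := IsLocalization.exists_mk'_eq (orig k).primeCompl w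
  have hwg : w * algebraMap _ (T k) (g : MvPolynomial (Fin 4) k) = algebraMap _ (T k) f := by
    rw [← hfg, IsLocalization.mk'_spec]
  have key : f * MvPolynomial.X 3 ^ 2 * (u : MvPolynomial (Fin 4) k) =
      (a : MvPolynomial (Fin 4) k) * (g : MvPolynomial (Fin 4) k) := by
    apply hinj
    rw [map_mul, map_mul, map_mul, ← hwg, ← hau, map_pow]
    unfold X
    ring
  have h1 : (f * (u : MvPolynomial (Fin 4) k)) * MvPolynomial.X 3 ^ 2 ∈ mono k := by
    have : (f * (u : MvPolynomial (Fin 4) k)) * MvPolynomial.X 3 ^ 2 =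
        (g : MvPolynomial (Fin 4) k) * (a : MvPolynomial (Fin 4) k) := by
      rw [mul_comm (g : MvPolynomial (Fin 4) k), ← key]; ring
    rw [this]
    exact Ideal.mul_mem_left _ _ a.2
  refine ⟨⟨⟨f * u, mono_mem h1⟩, g * u⟩, ?_⟩
  simp only [Submonoid.coe_mul, map_mul]
  rw [← hwg]
  ring

theorem map_mono :
    (mono k).map (algebraMap (MvPolynomial (Fin 4) k) (T k)) =
      Ideal.span {X k 0, X k 1, X k 2 ^ 2} := by
  rw [mono, Ideal.map_span]
  congr 1
  ext y
  simp only [expo, Set.image_insert_eq, Set.image_singleton, Set.mem_insert_iff,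
    Set.mem_singleton_iff]
  have e1 : ∀ i : Fin 4, algebraMap (MvPolynomial (Fin 4) k) (T k)
      (MvPolynomial.monomial (Finsupp.single i 1) 1) = X k i := by
    intro i; rfl
  have e2 : algebraMap (MvPolynomial (Fin 4) k) (T k)
      (MvPolynomial.monomial (Finsupp.single 2 2) 1) = X k 2 ^ 2 := by
    rw [← MvPolynomial.X_pow_eq_monomial, map_pow]; rfl
  rw [e1, e1, e2]

theorem maxIdeal_eq : maximalIdeal (T k) = Ideal.span (Set.range (X k)) := by
  rw [← Localization.AtPrime.map_eq_maximalIdeal]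
  apply le_antisymm
  · rw [Ideal.map_le_iff_le_comap]
    intro f hf
    rw [Ideal.mem_comap]
    have h1 : f ∈ Ideal.span (MvPolynomial.X '' (Set.univ : Set (Fin 4))) := by
      rw [MvPolynomial.mem_ideal_span_X_image]
      intro m hm
      by_contra hcon
      push Not at hcon
      have hm0 : m = 0 := by
        ext i; simpa using hcon i (Set.mem_univ i)
      rw [MvPolynomial.mem_support_iff, hm0] at hm
      apply hm
      rw [RingHom.mem_ker, MvPolynomial.constantCoeff_eq] at hf
      exact hf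
    have h2 := Ideal.mem_map_of_mem (algebraMap (MvPolynomial (Fin 4) k) (T k)) h1
    rw [Ideal.map_span, Set.image_univ, ← Set.range_comp] at h2
    exact h2
  · rw [Ideal.span_le]
    rintro _ ⟨i, rfl⟩
    apply Ideal.mem_map_of_mem
    rw [RingHom.mem_ker, MvPolynomial.constantCoeff_X]

variable {R0 : Type} [CommRing R0] {π : T k →+* R0}

/-- Diagonal elements. -/
def dg (π : T k →+* R0) : T k →+* RR π where
  toFun u := ⟨(u, u), rfl⟩
  map_one' := rfl
  map_mul' _ _ := rfl
  map_zero' := rfl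
  map_add' _ _ := rfl

noncomputable def a3 (s t : k) : T k := X k 2 ^ 2 - (cst k s * X k 1 ^ 2 + cst k t * X k 0 ^ 2)

noncomputable def a4 (s t : k) : T k :=
  X k 3 ^ 2 - (cst k (s ^ 2 + t) * X k 1 ^ 2 + cst k (s * t) * X k 0 ^ 2)

theorem taskG : TaskG := by
  intro k _ _ s t R0 _ π hπ hloc hmax
  have p3 : π (a3 s t) = 0 := by rw [a3, map_sub, hπ.rel2, sub_self]
  have p4 : π (a4 s t) = 0 := by rw [a4, map_sub, hπ.rel3, sub_self]
  have hX : ∀ i, X k i ∈ maximalIdeal (T k) := by
    intro i; rw [maxIdeal_eq]; exact Ideal.subset_span ⟨i, rfl⟩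
  refine ⟨![dg π (X k 0), dg π (X k 1), dg π (a3 s t), dg π (a4 s t)], ?_, ?_⟩
  · set I := Ideal.span (Set.range ![dg π (X k 0), dg π (X k 1), dg π (a3 s t), dg π (a4 s t)])
      with hI
    have m0 : dg π (X k 0) ∈ I := Ideal.subset_span ⟨0, rfl⟩
    have m1 : dg π (X k 1) ∈ I := Ideal.subset_span ⟨1, rfl⟩
    have m2 : dg π (a3 s t) ∈ I := Ideal.subset_span ⟨2, rfl⟩
    have m3 : dg π (a4 s t) ∈ I := Ideal.subset_span ⟨3, rfl⟩
    apply le_antisymm
    · rw [(maximalIdeal.isMaximal (RR π)).isPrime.radical_le_iff, hI, Ideal.span_le]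
      have hx2 : ∀ i (u : T k), u * X k i ^ 2 ∈ maximalIdeal (T k) := fun i u =>
        Ideal.mul_mem_left _ _ (Ideal.pow_mem_of_mem _ (hX i) 2 (by norm_num))
      have hx2' : ∀ i, X k i ^ 2 ∈ maximalIdeal (T k) := fun i =>
        (Ideal.pow_mem_of_mem _ (hX i) 2 (by norm_num))
      rintro _ ⟨i, rfl⟩
      rw [SetLike.mem_coe, hmax]
      fin_cases i
      · exact hX 0
      · exact hX 1
      · exact Ideal.sub_mem _ (hx2' 2) (Ideal.add_mem _ (hx2 _ _) (hx2 _ _))
      · exact Ideal.sub_mem _ (hx2' 3) (Ideal.add_mem _ (hx2 _ _) (hx2 _ _))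
    · intro r hr
      have hdX : ∀ i, dg π (X k i) ∈ I.radical := by
        intro i
        fin_cases i
        · exact Ideal.le_radical m0
        · exact Ideal.le_radical m1
        · refine ⟨2, ?_⟩
          have : dg π (X k 2) ^ 2 = dg π (a3 s t) + (dg π (cst k s * X k 1) * dg π (X k 1) +
              dg π (cst k t * X k 0) * dg π (X k 0)) := by
            rw [← map_pow, ← map_mul, ← map_mul, ← map_add, ← map_add]
            congr 1
            rw [a3]; ring
          change dg π (X k 2) ^ 2 ∈ I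
          rw [this]
          exact Ideal.add_mem _ m2 (Ideal.add_mem _ (Ideal.mul_mem_left _ _ m1)
            (Ideal.mul_mem_left _ _ m0))
        · refine ⟨2, ?_⟩
          have : dg π (X k 3) ^ 2 = dg π (a4 s t) + (dg π (cst k (s ^ 2 + t) * X k 1) *
              dg π (X k 1) + dg π (cst k (s * t) * X k 0) * dg π (X k 0)) := by
            rw [← map_pow, ← map_mul, ← map_mul, ← map_add, ← map_add]
            congr 1
            rw [a4]; ring
          change dg π (X k 3) ^ 2 ∈ I
          rw [this]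
          exact Ideal.add_mem _ m3 (Ideal.add_mem _ (Ideal.mul_mem_left _ _ m1)
            (Ideal.mul_mem_left _ _ m0))
      have hd : ∀ c ∈ maximalIdeal (T k), dg π c ∈ I.radical := by
        intro c hc
        rw [maxIdeal_eq] at hc
        have h1 := Ideal.mem_map_of_mem (dg π) hc
        rw [Ideal.map_span] at h1
        refine (Ideal.span_le.mpr ?_) h1
        rintro _ ⟨_, ⟨i, rfl⟩, rfl⟩
        exact hdX i
      have ha : r.1.1 ∈ maximalIdeal (T k) := (hmax r).mp hr
      have hb : r.1.2 ∈ maximalIdeal (T k) := by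
        by_contra hcon
        have hsw : (⟨(r.1.2, r.1.1), r.2.symm⟩ : RR π) ∉ maximalIdeal (RR π) := by
          rw [hmax]; exact hcon
        rw [mem_maximalIdeal, mem_nonunits_iff, not_not] at hsw
        obtain ⟨v, hv⟩ := hsw.exists_right_inv
        have h2 : r.1.1 * v.1.2 = 1 := congrArg (fun q : RR π => q.1.2) hv
        rw [mem_maximalIdeal, mem_nonunits_iff] at ha
        exact ha (IsUnit.of_mul_eq_one _ h2)
      have hr2 : r ^ 2 = dg π (r.1.1 + r.1.2) * r - dg π (r.1.1 * r.1.2) := by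
        apply Subtype.ext
        apply Prod.ext
        · change r.1.1 ^ 2 = (r.1.1 + r.1.2) * r.1.1 - r.1.1 * r.1.2
          ring
        · change r.1.2 ^ 2 = (r.1.1 + r.1.2) * r.1.2 - r.1.1 * r.1.2
          ring
      have h3 : r ^ 2 ∈ I.radical := by
        rw [hr2]
        exact Ideal.sub_mem _ (Ideal.mul_mem_right _ _ (hd _ (Ideal.add_mem _ ha hb)))
          (hd _ (Ideal.mul_mem_right _ _ ha))
      exact Ideal.mem_radical_of_pow_mem h3
  · refine ⟨⟨(X k 2 * a4 s t, 0), ?_⟩, ?_, ?_⟩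
    · change π (X k 2 * a4 s t) = π 0
      rw [map_mul, p4, mul_zero, map_zero]
    · intro hz
      rw [Ideal.mem_span_range_iff_exists_fun] at hz
      obtain ⟨c, hc⟩ := hz
      rw [Fin.sum_univ_four] at hc
      have h1 : (c 0).1.1 * X k 0 + (c 1).1.1 * X k 1 + (c 2).1.1 * a3 s t +
          (c 3).1.1 * a4 s t = X k 2 * a4 s t := congrArg (fun q : RR π => q.1.1) hc
      have h2 : (c 0).1.2 * X k 0 + (c 1).1.2 * X k 1 + (c 2).1.2 * a3 s t +
          (c 3).1.2 * a4 s t = 0 := congrArg (fun q : RR π => q.1.2) hc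
      have hj : ∀ i, π ((c i).1.1 - (c i).1.2) = 0 := by
        intro i
        have : π (c i).1.1 = π (c i).1.2 := (c i).2
        rw [map_sub, this, sub_self]
      set J := (mono k).map (algebraMap (MvPolynomial (Fin 4) k) (T k)) with hJ
      have j0 : X k 0 ∈ J := by rw [hJ, map_mono]; exact Ideal.subset_span (by simp)
      have j1 : X k 1 ∈ J := by rw [hJ, map_mono]; exact Ideal.subset_span (by simp)
      have j2 : X k 2 ^ 2 ∈ J := by rw [hJ, map_mono]; exact Ideal.subset_span (by simp)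
      have hw : (X k 2 - ((c 3).1.1 - (c 3).1.2)) * X k 3 ^ 2 ∈ J := by
        have : (X k 2 - ((c 3).1.1 - (c 3).1.2)) * X k 3 ^ 2 =
            ((c 0).1.1 - (c 0).1.2 + (X k 2 - ((c 3).1.1 - (c 3).1.2)) * (cst k (s * t) * X k 0)
              - ((c 2).1.1 - (c 2).1.2) * (cst k t * X k 0)) * X k 0 +
            ((c 1).1.1 - (c 1).1.2 + (X k 2 - ((c 3).1.1 - (c 3).1.2)) *
              (cst k (s ^ 2 + t) * X k 1) - ((c 2).1.1 - (c 2).1.2) * (cst k s * X k 1)) * X k 1 +
            ((c 2).1.1 - (c 2).1.2) * X k 2 ^ 2 := by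
          have h3 := congrArg₂ (· - ·) h1 h2
          simp only [a3, a4] at h3
          linear_combination -h3
        rw [this]
        exact Ideal.add_mem _ (Ideal.add_mem _ (Ideal.mul_mem_left _ _ j0)
          (Ideal.mul_mem_left _ _ j1)) (Ideal.mul_mem_left _ _ j2)
      have hw2 := mem_of_mul hw
      rw [map_mono] at hw2
      have hw3 := Ideal.mem_map_of_mem π hw2
      rw [Ideal.map_span, map_sub, hj 3, sub_zero] at hw3
      apply hπ.notMem
      refine (Ideal.span_le.mpr ?_) hw3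
      rintro _ ⟨y, hy, rfl⟩
      rcases hy with rfl | rfl | rfl
      · exact Ideal.subset_span (by simp)
      · exact Ideal.subset_span (by simp)
      · rw [SetLike.mem_coe, hπ.rel2, map_add, map_mul, map_mul, pow_two, pow_two, map_mul,
          map_mul]
        exact Ideal.add_mem _ (Ideal.mul_mem_left _ _ (Ideal.mul_mem_left _ _
          (Ideal.subset_span (by simp)))) (Ideal.mul_mem_left _ _ (Ideal.mul_mem_left _ _
          (Ideal.subset_span (by simp))))
    · have q0 : ((cst k t * a4 s t ^ 2, 0) : T k × T k) ∈ RR π := by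
        change π (cst k t * a4 s t ^ 2) = π 0
        rw [map_mul, map_pow, p4, map_zero]; ring
      have q1 : ((cst k s * a4 s t ^ 2, 0) : T k × T k) ∈ RR π := by
        change π (cst k s * a4 s t ^ 2) = π 0
        rw [map_mul, map_pow, p4, map_zero]; ring
      have q3 : ((a3 s t, 0) : T k × T k) ∈ RR π := by
        change π (a3 s t) = π 0
        rw [p3, map_zero]
      rw [Ideal.mem_span_range_iff_exists_fun]
      refine ⟨![⟨(cst k t * a4 s t ^ 2, 0), q0⟩, ⟨(cst k s * a4 s t ^ 2, 0), q1⟩, 0,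
        ⟨(a3 s t, 0), q3⟩], ?_⟩
      rw [Fin.sum_univ_four]
      apply Subtype.ext
      apply Prod.ext
      · change cst k t * a4 s t ^ 2 * X k 0 ^ 2 + cst k s * a4 s t ^ 2 * X k 1 ^ 2 +
          0 * a3 s t ^ 2 + a3 s t * a4 s t ^ 2 = (X k 2 * a4 s t) ^ 2
        simp only [a3]
        ring
      · change (0 : T k) * X k 0 ^ 2 + 0 * X k 1 ^ 2 + 0 * a3 s t ^ 2 + 0 * a4 s t ^ 2 = 0 ^ 2
        ring

end H503R3.FI.TaskG
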