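import Pool.Agent.H503R3.FI.Stmts

/-! Task H: the first Cech cohomology of the local ring of affine 4-space at the origin
vanishes. -/

set_option autoImplicit false

open IsLocalRing

namespace H503R3.FI.TaskH

section gen

variable {B : Type} [CommRing B] {n : ℕ}

theorem res_congr (x : Fin n → B) {i i' : ℕ} (c : Cochain x i') (jj : Fin i → Fin n)
    (j₁ j₂ : Fin i' → Fin n) (e : j₁ = j₂) (h₁ : Set.range j₁ ⊆ Set.range jj)
    (h₂ : Set.range j₂ ⊆ Set.range jj) : res x j₁ jj h₁ (c j₁) = res x j₂ jj h₂ (c j₂) := by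
  subst e
  rfl

theorem res_alg (x : Fin n → B) {i i' : ℕ} (jj : Fin i → Fin n) (j : Fin i' → Fin n)
    (h : Set.range j ⊆ Set.range jj) (b : B) :
    res x j jj h (algebraMap B (L x j) b) = algebraMap B (L x jj) b := by
  unfold res
  exact IsLocalization.Away.lift_eq _ _ _

variable [IsDomain B]

theorem cocycle (x : Fin n → B) (c : Cochain x 1) (hc : d x 1 c = 0) (j j' : Fin 1 → Fin n)
    (M M' : ℕ) (a a' : B)
    (h : c j * algebraMap B (L x j) (∏ l, x (j l)) ^ M = algebraMap B (L x j) a)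
    (h' : c j' * algebraMap B (L x j') (∏ l, x (j' l)) ^ M' = algebraMap B (L x j') a')
    (hj : (∏ l, x (j l)) ≠ 0) (hj' : (∏ l, x (j' l)) ≠ 0) :
    (∏ l, x (j' l)) ^ M' * a = (∏ l, x (j l)) ^ M * a' := by
  set jj : Fin 2 → Fin n := ![j 0, j' 0] with hjj
  have e0 : jj ∘ (0 : Fin 2).succAbove = j' := by
    funext l
    have : l = 0 := Subsingleton.elim _ _
    subst this
    simp [hjj]
  have e1 : jj ∘ (1 : Fin 2).succAbove = j := by
    funext l
    have : l = 0 := Subsingleton.elim _ _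
    subst this
    simp [hjj]
  have r0 : Set.range j' ⊆ Set.range jj := by
    rw [← e0]; exact Set.range_comp_subset_range _ _
  have r1 : Set.range j ⊆ Set.range jj := by
    rw [← e1]; exact Set.range_comp_subset_range _ _
  have hcc : res x j' jj r0 (c j') = res x j jj r1 (c j) := by
    have := congrFun hc jj
    unfold d at this
    rw [Fin.sum_univ_two] at this
    rw [res_congr x c jj _ j' e0 _ r0, res_congr x c jj _ j e1 _ r1] at this
    simp at this
    linear_combination this
  have k1 := congrArg (res x j jj r1) h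
  have k2 := congrArg (res x j' jj r0) h'
  rw [map_mul, map_pow, res_alg, res_alg] at k1 k2
  have hP : (∏ l, x (jj l)) ≠ 0 := by
    rw [Fin.prod_univ_two]
    simp only [Fin.prod_univ_one] at hj hj'
    simp [hjj, hj, hj']
  have inj : Function.Injective (algebraMap B (L x jj)) :=
    IsLocalization.injective _ (powers_le_nonZeroDivisors_of_noZeroDivisors hP)
  apply inj
  rw [map_mul, map_mul, map_pow, map_pow, ← k1, ← k2, hcc]
  ring

theorem gen (p1 p2 : B) (hp1 : Prime p1) (hp12 : ¬ p1 ∣ p2) (x : Fin n → B)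
    (hx1 : p1 ∈ (Ideal.span (Set.range x)).radical)
    (hx2 : p2 ∈ (Ideal.span (Set.range x)).radical)
    (c : Cochain x 1) (hc : d x 1 c = 0) : ∃ b : Cochain x 0, d x 0 b = c := by
  have hch : ∀ j : Fin 1 → Fin n, ∃ (M : ℕ) (a : B),
      c j * algebraMap B (L x j) (∏ l, x (j l)) ^ M = algebraMap B (L x j) a := by
    intro j
    obtain ⟨M, a, h⟩ := IsLocalization.Away.surj (∏ l, x (j l)) (c j)
    exact ⟨M, a, h⟩
  choose M a hMa using hch
  -- there is a nonzero generator
  obtain ⟨j0, hj0⟩ : ∃ j0 : Fin n, x j0 ≠ 0 := by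
    by_contra hcon
    push Not at hcon
    have : Ideal.span (Set.range x) = ⊥ := by
      rw [Ideal.span_eq_bot]
      rintro _ ⟨i, rfl⟩
      exact hcon i
    rw [this] at hx1
    obtain ⟨N, hN⟩ := hx1
    rw [Ideal.mem_bot] at hN
    exact pow_ne_zero N hp1.ne_zero hN
  set J0 : Fin 1 → Fin n := fun _ => j0 with hJ0
  have hPJ0 : (∏ l, x (J0 l)) ≠ 0 := by simpa [hJ0] using hj0
  set D : B := (∏ l, x (J0 l)) ^ M J0 with hD
  have hD0 : D ≠ 0 := pow_ne_zero _ hPJ0
  -- the ideal `(D : a J0)`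
  have hcol : ∀ t ∈ (Ideal.span (Set.range x)).radical, ∃ N : ℕ, D ∣ t ^ N * a J0 := by
    let I : Ideal B :=
      { carrier := {t | D ∣ t * a J0}
        add_mem' := fun {s t} hs ht => by
          simp only [Set.mem_ofPred_eq] at hs ht ⊢
          rw [add_mul]; exact dvd_add hs ht
        zero_mem' := by simp
        smul_mem' := fun r t ht => by
          simp only [Set.mem_ofPred_eq, smul_eq_mul] at ht ⊢
          rw [mul_assoc]; exact Dvd.dvd.mul_left ht _ }
    have hI : ∀ t, t ∈ I ↔ D ∣ t * a J0 := fun t => Iff.rfl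
    have hle : Ideal.span (Set.range x) ≤ I.radical := by
      rw [Ideal.span_le]
      rintro _ ⟨i, rfl⟩
      by_cases hi : x i = 0
      · rw [hi]; exact zero_mem _
      · refine ⟨M (fun _ => i), ?_⟩
        rw [hI]
        have hPi : (∏ l, x ((fun _ : Fin 1 => i) l)) ≠ 0 := by simpa using hi
        have := cocycle x c hc J0 (fun _ => i) (M J0) (M fun _ => i) (a J0) (a fun _ => i)
          (hMa _) (hMa _) hPJ0 hPi
        simp only [Fin.prod_univ_one] at this
        rw [this]
        refine Dvd.dvd.mul_right ?_ _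
        rw [hD]; simp
    intro t ht
    have h2 : t ∈ I.radical := by
      have := Ideal.radical_mono hle ht
      rwa [Ideal.radical_idem] at this
    obtain ⟨N, hN⟩ := h2
    exact ⟨N, (hI _).1 hN⟩
  obtain ⟨N1, b1, hb1⟩ := hcol p1 hx1
  obtain ⟨N2, b2, hb2⟩ := hcol p2 hx2
  -- p1 ^ N1 * a = D * b1, p2 ^ N2 * a = D * b2
  have key : p2 ^ N2 * b1 = p1 ^ N1 * b2 := by
    apply mul_left_cancel₀ hD0
    calc D * (p2 ^ N2 * b1) = p2 ^ N2 * (D * b1) := by ring
      _ = p2 ^ N2 * (p1 ^ N1 * a J0) := by rw [hb1]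
      _ = p1 ^ N1 * (p2 ^ N2 * a J0) := by ring
      _ = D * (p1 ^ N1 * b2) := by rw [hb2]; ring
  have hdv : p1 ^ N1 ∣ b1 := by
    refine hp1.pow_dvd_of_dvd_mul_left N1 (fun h => hp12 (hp1.dvd_of_dvd_pow h)) ?_
      (a := p2 ^ N2)
    rw [key]
    exact dvd_mul_right _ _
  obtain ⟨q, hq⟩ := hdv
  have haq : a J0 = D * q := by
    apply mul_left_cancel₀ (pow_ne_zero N1 hp1.ne_zero)
    rw [hb1, hq]; ring
  refine ⟨fun _ => algebraMap B _ q, ?_⟩
  funext j
  unfold d
  rw [Fin.sum_univ_one, res_alg]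
  simp only [Fin.val_zero, pow_zero, one_mul]
  by_cases hj : (∏ l, x (j l)) = 0
  · have : Subsingleton (L x j) := by
      have hu : IsUnit (algebraMap B (L x j) (∏ l, x (j l))) :=
        IsLocalization.Away.algebraMap_isUnit _
      have hz : algebraMap B (L x j) (∏ l, x (j l)) = 0 := by
        have h0 : ∀ t : B, t = 0 → algebraMap B (L x j) t = 0 := by
          rintro t rfl; exact map_zero _
        exact h0 _ hj
      have hu' : ∀ t : L x j, IsUnit t → t = 0 → (0 : L x j) = 1 := by
        rintro t ht rfl; exact isUnit_zero_iff.1 ht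
      exact subsingleton_of_zero_eq_one (hu' _ hu hz)
    exact Subsingleton.elim _ _
  · have h1 := cocycle x c hc J0 j (M J0) (M j) (a J0) (a j) (hMa _) (hMa _) hPJ0 hj
    rw [haq, ← hD] at h1
    have h2 : a j = (∏ l, x (j l)) ^ M j * q := by
      apply mul_left_cancel₀ hD0
      rw [← h1]; ring
    have h3 := hMa j
    rw [h2, map_mul, map_pow] at h3
    have hu : IsUnit (algebraMap B (L x j) (∏ l, x (j l)) ^ M j) :=
      (IsLocalization.Away.algebraMap_isUnit _).pow _
    apply hu.mul_right_cancel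
    rw [h3, mul_comm]

end gen

theorem X_dvd (k : Type) [Field k] : ¬ (X k 0 ∣ X k 1) ∧ Prime (X k 0) := by
  have hdom : IsDomain (T k) :=
    IsLocalization.isDomain_localization (Ideal.primeCompl_le_nonZeroDivisors _)
  set A := MvPolynomial (Fin 4) k with hA
  have inj : Function.Injective (algebraMap A (T k)) :=
    IsLocalization.injective _ (Ideal.primeCompl_le_nonZeroDivisors (orig k))
  have hp : Prime (MvPolynomial.X 0 : A) := MvPolynomial.X_prime
  -- units: elements outside `orig`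
  have hs : ∀ s : A, s ∉ orig k → ¬ (MvPolynomial.X 0 : A) ∣ s := by
    intro s hs ⟨t, ht⟩
    apply hs
    rw [ht, orig, RingHom.mem_ker, map_mul, MvPolynomial.constantCoeff_X, zero_mul]
  have hmk : ∀ z : T k, ∃ (s : A), s ∉ orig k ∧ ∃ a : A,
      z * algebraMap A (T k) s = algebraMap A (T k) a := by
    intro z
    obtain ⟨⟨a, s⟩, h⟩ := IsLocalization.surj (orig k).primeCompl z
    exact ⟨s, s.2, a, h⟩
  have hun : ∀ s : A, s ∉ orig k → IsUnit (algebraMap A (T k) s) := fun s hs =>
    IsLocalization.map_units (T k) (⟨s, hs⟩ : (orig k).primeCompl)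
  -- divisibility by `X 0` in the local ring
  have hdiv : ∀ a : A, X k 0 ∣ algebraMap A (T k) a → (MvPolynomial.X 0 : A) ∣ a := by
    rintro a ⟨z, hz⟩
    obtain ⟨s, hs1, b, hb⟩ := hmk z
    have h1 : algebraMap A (T k) (a * s) = algebraMap A (T k) (MvPolynomial.X 0 * b) := by
      rw [map_mul, map_mul, hz, mul_assoc, hb]; rfl
    have h2 := inj h1
    have h3 : (MvPolynomial.X 0 : A) ∣ a * s := ⟨b, h2⟩
    exact (hp.dvd_or_dvd h3).resolve_right (hs s hs1)
  refine ⟨fun h => ?_, ?_, ?_, ?_⟩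
  · have h1 := hdiv _ h
    rw [MvPolynomial.X_dvd_X] at h1
    simp at h1
  · intro h
    exact hp.ne_zero (inj (by rw [map_zero]; exact h))
  · intro h
    have h1 := hdiv 1 (by rw [map_one]; exact h.dvd)
    exact hp.not_isUnit (isUnit_of_dvd_one h1)
  · intro y z h
    obtain ⟨s, hs1, b, hb⟩ := hmk y
    obtain ⟨t, ht1, c, hc⟩ := hmk z
    have h1 : X k 0 ∣ algebraMap A (T k) (b * c) := by
      rw [map_mul, ← hb, ← hc]
      have : y * algebraMap A (T k) s * (z * algebraMap A (T k) t) =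
        (y * z) * (algebraMap A (T k) s * algebraMap A (T k) t) := by ring
      rw [this]
      exact Dvd.dvd.mul_right h _
    have h2 := hp.dvd_or_dvd (hdiv _ h1)
    have lift : ∀ (w : T k) (u e : A), u ∉ orig k → w * algebraMap A (T k) u =
        algebraMap A (T k) e → (MvPolynomial.X 0 : A) ∣ e → X k 0 ∣ w := by
      rintro w u e hu hw ⟨f, rfl⟩
      have h3 : X k 0 ∣ w * algebraMap A (T k) u := by
        rw [hw, map_mul]; exact Dvd.intro _ rfl
      exact (hun u hu).dvd_mul_right.1 h3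
    rcases h2 with h2 | h2
    · exact Or.inl (lift y s b hs1 hb h2)
    · exact Or.inr (lift z t c ht1 hc h2)

theorem taskH : TaskH := by
  intro k _ n x hx c hc
  have : IsDomain (T k) := IsLocalization.isDomain_localization (Ideal.primeCompl_le_nonZeroDivisors _)
  obtain ⟨h1, h2⟩ := X_dvd k
  have hX : ∀ i, X k i ∈ maximalIdeal (T k) := by
    intro i
    unfold X
    rw [IsLocalization.AtPrime.to_map_mem_maximal_iff (T k) (orig k)]
    simp [orig, RingHom.mem_ker]
  exact gen (X k 0) (X k 1) h2 h1 x (hx ▸ hX 0) (hx ▸ hX 1) c hc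

end H503R3.FI.TaskH
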